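import Mathlib

set_option autoImplicit false

/-!
# A smooth threefold in `ℙ³ × ℙ¹` without curve of best approximation: definitions
-/

namespace Pool.Agent.Y738.BC

open MvPolynomial Filter Topology LinearAlgebra.Projectivization

/-- the coordinate ring `ℚ[x₀, x₁, x₂, x₃; t₀, t₁]` of `ℙ³ × ℙ¹` -/
abbrev R : Type := MvPolynomial (Fin 4 ⊕ Fin 2) ℚ

/-- the coordinates of `ℙ³` -/
noncomputable abbrev x (i : Fin 4) : R := X (Sum.inl i)

/-- the coordinates of `ℙ¹` -/
noncomputable abbrev t (i : Fin 2) : R := X (Sum.inr i)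

/-- the bihomogeneous form of bidegree `(4, 1)` which defines the threefold -/
noncomputable def G : R :=
  t 1 * (x 3 * (x 0 ^ 3 + 2 * x 1 ^ 3 + 4 * x 2 ^ 3 - 6 * x 0 * x 1 * x 2) -
      (x 0 ^ 4 + 24 * x 0 ^ 2 * x 1 * x 2 + 8 * x 0 * x 1 ^ 3 + 16 * x 0 * x 2 ^ 3 +
        24 * x 1 ^ 2 * x 2 ^ 2)) +
    t 0 * (x 3 ^ 4 + 12 * x 0 ^ 2 * x 1 ^ 2 + 8 * x 0 ^ 3 * x 2 + 48 * x 0 * x 1 * x 2 ^ 2 +
      16 * x 1 ^ 3 * x 2 + 8 * x 2 ^ 4)

/-- the rational points of `ℙ³ × ℙ¹` -/
abbrev Pt : Type := ℙ ℚ (Fin 4 → ℚ) × ℙ ℚ (Fin 2 → ℚ)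

/-- the rational points of the closed subscheme of `ℙ³ × ℙ¹` defined by the ideal `J` -/
def points (J : Ideal R) : Set Pt :=
  {p | ∀ F ∈ J, ∀ (a : Fin 4 → ℚ) (b : Fin 2 → ℚ) (ha : a ≠ 0) (hb : b ≠ 0),
    (Projectivization.mk ℚ a ha, Projectivization.mk ℚ b hb) = p → aeval (Sum.elim a b) F = 0}

/-- the point `([0 : 0 : 0 : 1], [0 : 1])` -/
noncomputable def P : Pt :=
  (Projectivization.mk ℚ ![0, 0, 0, 1] (fun h => one_ne_zero (congrFun h 3)),
    Projectivization.mk ℚ ![0, 1] (fun h => one_ne_zero (congrFun h 1)))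

/-- the height of a rational point with respect to `O(a, b)` -/
noncomputable def height (a b : ℕ) (p : Pt) : ℝ := p.1.mulHeight ^ a * p.2.mulHeight ^ b

/-- the distance of two rational points of a projective space for the real absolute value -/
noncomputable def pdist {n : ℕ} (p q : ℙ ℚ (Fin n → ℚ)) : ℝ :=
  (⨆ i, ⨆ j, |((p.rep i * q.rep j - p.rep j * q.rep i : ℚ) : ℝ)|) /
    ((⨆ i, |(p.rep i : ℝ)|) * ⨆ i, |(q.rep i : ℝ)|)

/-- the distance of two rational points of `ℙ³ × ℙ¹` for the real absolute value -/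
noncomputable def dist (p q : Pt) : ℝ := max (pdist p.1 q.1) (pdist p.2 q.2)

/-- the approximation constant of a sequence: the infimum of all real numbers `γ` such that
`H (p i) dist (P, p i) ^ γ` is bounded above, if `dist (P, p i)` tends to `0`; the infimum of the
empty set, that is `∞`, otherwise -/
noncomputable def seqConst (a b : ℕ) (p : ℕ → Pt) (P : Pt) : EReal :=
  sInf {g : EReal | ∃ γ : ℝ, g = (γ : EReal) ∧ Tendsto (fun i => dist P (p i)) atTop (𝓝 0) ∧
    BddAbove (Set.range fun i => height a b (p i) * dist P (p i) ^ γ)}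

/-- the approximation constant of the point `P` with respect to the restriction of `O(a, b)`:
the infimum of the constants of the sequences of distinct points in the set `S` -/
noncomputable def approxConst (a b : ℕ) (S : Set Pt) (P : Pt) : EReal :=
  sInf {g : EReal | ∃ p : ℕ → Pt, Function.Injective p ∧ (∀ i, p i ∈ S) ∧
    g = seqConst a b p P}

end Pool.Agent.Y738.BC
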