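import Mathlib
import Pool.Agent.TH796.AL.Stms
import Pool.Agent.TH928.AL_FIXA
import Pool.Agent.TH416.AL_DEC
import Pool.Agent.TH286.GT.Alg
import Pool.Agent.TH286.GT.AuxO
import Pool.Agent.TH286.GT.ExpandO
import Pool.Agent.TH286.GT.VanD
import Pool.Agent.TH286.GT.EstO
import Pool.Agent.TH286.GT.CoreO
import Pool.Agent.TH286.GT.DichO
import Pool.Agent.TH286.GT.PenO
import Pool.Agent.TH286.GT.RedO
import Pool.Agent.TH286.GT.SubO
import Pool.Agent.TH461.SST.Hp
import Pool.Agent.TH461.SST.CB
import Pool.Agent.TH461.SST.SF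
import Pool.Agent.TH461.SST.Gap
import Pool.Agent.TH461.SST.Comp

set_option autoImplicit false

/-!
# The subspace theorem for germs with algebraic coefficients at the real place
-/

namespace Pool.Agent.Y738.BC.Fix

open Pool.Agent.TH286.GT
open Pool.Agent.TH461.SST (HeightPairStmt CBStmt SFStmt GapStmt CompStmt)

theorem cb : CBStmt := Pool.Agent.TH461.SST.CB.cb
theorem sf : SFStmt := Pool.Agent.TH461.SST.SF.sf cb
theorem gap : GapStmt := Pool.Agent.TH461.SST.Gap.gap
theorem comp : CompStmt := Pool.Agent.TH461.SST.Comp.comp cb sf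
theorem hp : HeightPairStmt := Pool.Agent.TH461.SST.Hp.height_pair

/-- the subspace theorem with algebraic forms for the points of the lattices `B_t ℤ^n` -/
theorem subspaceO (O : Type) [CommRing O] [IsDomain O] [Module.Free ℤ O] [Module.Finite ℤ O]
    (φ : O →+* ℂ) : SubOStmt O φ :=
  SubO.subO O φ (PenO.penO O φ (CoreO.coreO O φ (AuxO.auxO O φ)
    (VanD.vanishO O φ (ExpandO.expandO O)) (EstO.estO O)) hp (DichO.dichO O φ (Alg.ht O φ)))
    cb sf (RedO.redO O φ cb sf gap comp)

/-- the subspace theorem for germs -/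
theorem fixa_thm : Pool.Agent.TH796.AL.FixAStmt :=
  Pool.Agent.TH928.AL.fixa fun O _ _ _ _ φ => subspaceO O φ

end Pool.Agent.Y738.BC.Fix
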