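import Mathlib
import Pool.Agent.Y738.BC.Fix

set_option autoImplicit false

/-!
# Consequences of the subspace theorem for the germs of a sequence of integral points
-/

namespace Pool.Agent.Y738.BC

open Filter Topology MvPolynomial Pool.Agent.TH932.Germs Pool.Agent.TH796.AL

/-- the exponents of degree `m` -/
abbrev Ex (m : ℕ) : Finset (Fin 3 →₀ ℕ) := Finset.finsuppAntidiag Finset.univ m

lemma mem_Ex {m : ℕ} {e : Fin 3 →₀ ℕ} : e ∈ Ex m ↔ e 0 + e 1 + e 2 = m := by
  rw [Finset.mem_finsuppAntidiag]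
  simp [Fin.sum_univ_three]

lemma deg_eq (e : Fin 3 →₀ ℕ) : e.degree = e 0 + e 1 + e 2 := by
  rw [Finsupp.degree_eq_sum, Fin.sum_univ_three]

lemma hom_mem {K : Type*} [CommSemiring K] {m : ℕ} {f : MvPolynomial (Fin 3) K}
    (hf : f.IsHomogeneous m) {e : Fin 3 →₀ ℕ} (he : coeff e f ≠ 0) : e ∈ Ex m := by
  rw [mem_Ex, ← deg_eq]
  have := hf he
  rw [← this, Finsupp.degree_eq_weight_one]
  rfl

lemma aeval_sum {K A : Type*} [CommSemiring K] [CommSemiring A] [Algebra K A] {m : ℕ}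
    {f : MvPolynomial (Fin 3) K} (hf : f.IsHomogeneous m) (g : Fin 3 → A) :
    aeval g f = ∑ e ∈ Ex m, coeff e f • ∏ i, g i ^ e i := by
  rw [aeval_def, eval₂_eq']
  have h1 : f.support ⊆ Ex m := by
    intro e he
    exact hom_mem hf (mem_support_iff.1 he)
  rw [Finset.sum_subset h1 (fun e _ he => by
    rw [notMem_support_iff.1 he, map_zero, zero_mul])]
  refine Finset.sum_congr rfl fun e _ => ?_
  rw [Algebra.smul_def]

/-- the average of the exponents -/
lemma sum_Ex (m : ℕ) : ∑ e ∈ Ex m, (3 * (e 0 : ℝ) - m) = 0 := by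
  have h1 : ∑ e ∈ Ex m, (e 0 : ℝ) = ∑ e ∈ Ex m, (e 1 : ℝ) := by
    refine Finset.sum_nbij' (fun e => Finsupp.equivMapDomain (Equiv.swap 0 1) e)
      (fun e => Finsupp.equivMapDomain (Equiv.swap 0 1) e) ?_ ?_ ?_ ?_ ?_
    · intro e he
      rw [mem_Ex] at he ⊢
      have h : (Equiv.swap (0 : Fin 3) 1) 2 = 2 := by decide
      simp [Finsupp.equivMapDomain_apply, h]
      omega
    · intro e he
      rw [mem_Ex] at he ⊢
      have h : (Equiv.swap (0 : Fin 3) 1) 2 = 2 := by decide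
      simp [Finsupp.equivMapDomain_apply, h]
      omega
    · intro e _
      ext i
      simp [Finsupp.equivMapDomain_apply]
    · intro e _
      ext i
      simp [Finsupp.equivMapDomain_apply]
    · intro e _
      simp [Finsupp.equivMapDomain_apply]
  have h2 : ∑ e ∈ Ex m, (e 0 : ℝ) = ∑ e ∈ Ex m, (e 2 : ℝ) := by
    refine Finset.sum_nbij' (fun e => Finsupp.equivMapDomain (Equiv.swap 0 2) e)
      (fun e => Finsupp.equivMapDomain (Equiv.swap 0 2) e) ?_ ?_ ?_ ?_ ?_
    · intro e he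
      rw [mem_Ex] at he ⊢
      have h : (Equiv.swap (0 : Fin 3) 2) 1 = 1 := by decide
      simp [Finsupp.equivMapDomain_apply, h]
      omega
    · intro e he
      rw [mem_Ex] at he ⊢
      have h : (Equiv.swap (0 : Fin 3) 2) 1 = 1 := by decide
      simp [Finsupp.equivMapDomain_apply, h]
      omega
    · intro e _
      ext i
      simp [Finsupp.equivMapDomain_apply]
    · intro e _
      ext i
      simp [Finsupp.equivMapDomain_apply]
    · intro e _
      simp [Finsupp.equivMapDomain_apply]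
  have h3 : ∑ e ∈ Ex m, ((e 0 : ℝ) + e 1 + e 2) = ∑ e ∈ Ex m, (m : ℝ) := by
    refine Finset.sum_congr rfl fun e he => ?_
    rw [mem_Ex] at he
    exact_mod_cast he
  rw [Finset.sum_add_distrib, Finset.sum_add_distrib, ← h1, ← h2] at h3
  rw [Finset.sum_sub_distrib, ← Finset.mul_sum]
  linarith

/-- the germs of the coordinates -/
noncomputable def gi (v : ℕ → Fin 3 → ℤ) (i : Fin 3) : GG := gm fun n => (v n i : ℚ)

/-- the real germs of the coordinates -/
noncomputable def gv (v : ℕ → Fin 3 → ℤ) (i : Fin 3) : HR := rho (gi v i)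

lemma gv_eq (v : ℕ → Fin 3 → ℤ) (i : Fin 3) : gv v i = gr fun n => (v n i : ℝ) := by
  unfold gv gi
  rw [rho_gm]
  simp

/-- the linear substitution -/
noncomputable def lin {K : Type*} [CommSemiring K] (c d : K) (i : Fin 3) :
    MvPolynomial (Fin 3) K :=
  ![X 0 + C c * X 1 + C d * X 2, X 1, X 2] i

lemma lin_hom {K : Type*} [CommSemiring K] (c d : K) (i : Fin 3) :
    (lin c d i).IsHomogeneous 1 := by
  fin_cases i
  · refine ((isHomogeneous_X _ _).add ?_).add ?_
    · exact (isHomogeneous_X K 1).C_mul c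
    · exact (isHomogeneous_X K 2).C_mul d
  · exact isHomogeneous_X _ _
  · exact isHomogeneous_X _ _

lemma lin_lin {K : Type*} [CommRing K] (c d : K) (f : MvPolynomial (Fin 3) K) :
    aeval (lin c d) (aeval (lin (-c) (-d)) f) = f := by
  rw [← AlgHom.comp_apply, comp_aeval]
  have : (fun i => aeval (lin c d) (lin (-c) (-d) i)) = (X : Fin 3 → MvPolynomial (Fin 3) K) := by
    funext i
    fin_cases i
    · simp [lin]
      ring
    · simp [lin]
    · simp [lin]
  rw [this]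
  simp


lemma aeval_mon {K A : Type*} [CommSemiring K] [CommSemiring A] [Algebra K A] (g : Fin 3 → A)
    (e : Fin 3 →₀ ℕ) (a : K) : aeval g (monomial e a) = a • ∏ i, g i ^ e i := by
  rw [aeval_monomial, Algebra.smul_def, Finsupp.prod_fintype _ _ (fun i => pow_zero _)]

/-! ## sizes -/

lemma SR_mul {L : ℕ → ℝ} {s t : ℝ} {x y : HR} (hx : x ∈ SR L s) (hy : y ∈ SR L t) :
    x * y ∈ SR L (s + t) := by
  obtain ⟨a, rfl, ha⟩ := hx
  obtain ⟨b, rfl, hb⟩ := hy
  refine ⟨fun n => a n * b n, gr_mul a b, fun ε hε => ?_⟩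
  filter_upwards [ha (ε / 2) (by positivity), hb (ε / 2) (by positivity)] with n h1 h2
  rw [abs_mul]
  calc |a n| * |b n| ≤ Real.exp (-(s - ε / 2) * L n) * Real.exp (-(t - ε / 2) * L n) := by
        gcongr
    _ = Real.exp (-(s + t - ε) * L n) := by rw [← Real.exp_add]; ring_nf

lemma SR_one {L : ℕ → ℝ} (hL : Tendsto L atTop atTop) : (1 : HR) ∈ SR L 0 := by
  refine ⟨fun _ => 1, gr_one.symm, fun ε hε => ?_⟩
  filter_upwards [ev_of_atTop (hL.eventually_ge_atTop 0)] with n hn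
  rw [abs_one]
  apply Real.one_le_exp
  have := mul_nonneg hε.le hn
  linarith

lemma SR_pow {L : ℕ → ℝ} (hL : Tendsto L atTop atTop) {s : ℝ} {x : HR} (hx : x ∈ SR L s)
    (k : ℕ) : x ^ k ∈ SR L (k * s) := by
  induction k with
  | zero => simpa using SR_one hL
  | succ k ih =>
    rw [pow_succ]
    have := SR_mul ih hx
    push_cast
    rwa [add_mul, one_mul]

/-- a sequence of integral points which is close to a line with algebraic slopes -/
structure Sm {F : IntermediateField ℚ ℝ} (c d : F) (L : ℕ → ℝ) (v : ℕ → Fin 3 → ℤ) :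
    Prop where
  hL : Tendsto L atTop atTop
  hv : ∀ i, ∀ ε : ℝ, 0 < ε → ∀ᶠ n in (UU : Filter ℕ), |(v n i : ℝ)| ≤ Real.exp ((1 + ε) * L n)
  hX : ∀ ε : ℝ, 0 < ε → ∀ᶠ n in (UU : Filter ℕ),
    |(v n 0 : ℝ) + c * v n 1 + d * v n 2| ≤ Real.exp (-(2 - ε) * L n)
  hX0 : ∀ᶠ n in (UU : Filter ℕ), (v n 0 : ℝ) + c * v n 1 + d * v n 2 ≠ 0

section main

variable {F : IntermediateField ℚ ℝ} {c d : F} {L : ℕ → ℝ} {v : ℕ → Fin 3 → ℤ}

/-- the germs of the coordinates after the linear substitution -/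
noncomputable def yv (c d : F) (v : ℕ → Fin 3 → ℤ) (i : Fin 3) : HR :=
  aeval (gv v) (lin c d i)

lemma yv_zero : yv c d v 0 = gr fun n => (v n 0 : ℝ) + c * v n 1 + d * v n 2 := by
  have h1 : algebraMap F HR c = gr fun _ => (c : ℝ) := rfl
  have h2 : algebraMap F HR d = gr fun _ => (d : ℝ) := rfl
  simp only [yv, lin, Matrix.cons_val_zero, map_add, map_mul, aeval_X, aeval_C, gv_eq]
  rw [h1, h2, gr_mul, gr_mul, gr_add, gr_add]

lemma yv_one : yv c d v 1 = gv v 1 := by simp [yv, lin]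

lemma yv_two : yv c d v 2 = gv v 2 := by simp [yv, lin]

lemma Sm.gv_mem (h : Sm c d L v) (i : Fin 3) : gv v i ∈ SR L (-1) := by
  refine ⟨_, gv_eq v i, fun ε hε => ?_⟩
  filter_upwards [h.hv i ε hε] with n hn
  refine hn.trans (le_of_eq ?_)
  congr 1
  ring

lemma Sm.yv_mem (h : Sm c d L v) : yv c d v 0 ∈ SR L 2 := by
  refine ⟨_, yv_zero, fun ε hε => ?_⟩
  filter_upwards [h.hX ε hε] with n hn using hn

lemma Sm.yv_ne (h : Sm c d L v) : yv c d v 0 ≠ 0 := by
  rw [yv_zero, gr_ne_zero]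
  exact h.hX0

lemma Sm.mon_mem (h : Sm c d L v) {m : ℕ} {e : Fin 3 →₀ ℕ} (he : e ∈ Ex m) :
    ∏ i, yv c d v i ^ e i ∈ SR L (3 * (e 0 : ℝ) - m) := by
  rw [Fin.prod_univ_three]
  have h1 := SR_mul (SR_mul (SR_pow h.hL h.yv_mem (e 0)) (SR_pow h.hL (h.gv_mem 1) (e 1)))
    (SR_pow h.hL (h.gv_mem 2) (e 2))
  rw [yv_one, yv_two]
  have h2 : (e 0 : ℝ) + e 1 + e 2 = m := by
    rw [mem_Ex] at he
    exact_mod_cast he
  have h3 : 3 * (e 0 : ℝ) - m = e 0 * 2 + e 1 * (-1) + e 2 * (-1) := by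
    rw [← h2]; ring
  rw [h3]
  exact h1

end main

end Pool.Agent.Y738.BC
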