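import Mathlib
import Pool.Agent.Helper834.EC.Dim1
import Pool.Agent.Y738.BC.Germ
import Pool.Agent.Y738.BC.Defs

set_option autoImplicit false

/-!
# A curve gives a form which vanishes along its points
-/

namespace Pool.Agent.Y738.BC

open MvPolynomial

/-- four of the coordinates -/
noncomputable def el : Fin 4 → R := ![x 0, x 1, x 2, t 1]

lemma exists_rel (𝔭 : Ideal R) (h𝔭 : 𝔭.IsPrime) (hd : ringKrullDim (R ⧸ 𝔭) ≤ 3) :
    ∃ Φ : MvPolynomial (Fin 4) ℚ, Φ ≠ 0 ∧ aeval el Φ ∈ 𝔭 := by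
  haveI : IsDomain (R ⧸ 𝔭) := Ideal.Quotient.isDomain 𝔭
  obtain ⟨s, h1, h2⟩ := Pool.Agent.Helper834.EC.exists_ringKrullDim_eq_trdeg ℚ (R ⧸ 𝔭)
  have h3 : s ≤ 3 := by
    rw [h1] at hd
    exact_mod_cast hd
  by_contra hcon
  push Not at hcon
  have h4 : AlgebraicIndependent ℚ (fun i => Ideal.Quotient.mkₐ ℚ 𝔭 (el i)) := by
    rw [algebraicIndependent_iff]
    intro Φ hΦ
    by_contra hne
    apply hcon Φ hne
    rw [← comp_aeval, AlgHom.comp_apply] at hΦ
    exact Ideal.Quotient.eq_zero_iff_mem.1 hΦ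
  have h5 := h4.cardinalMk_le_trdeg
  rw [h2, Cardinal.mk_fin] at h5
  have h6 : 4 ≤ s := by exact_mod_cast h5
  omega

/-- the relation for an arbitrary closed subscheme of dimension at most one -/
lemma exists_rel' (J : Ideal R) (hd : ringKrullDim (R ⧸ J) ≤ 3) :
    ∃ Φ : MvPolynomial (Fin 4) ℚ, Φ ≠ 0 ∧ aeval el Φ ∈ J := by
  obtain ⟨S, hS⟩ : ∃ S : Submonoid R, S = (nonZeroDivisors (MvPolynomial (Fin 4) ℚ)).map
      (aeval el : MvPolynomial (Fin 4) ℚ →ₐ[ℚ] R) := ⟨_, rfl⟩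
  by_contra hcon
  push Not at hcon
  have hdis : Disjoint (J : Set R) (S : Set R) := by
    rw [Set.disjoint_left]
    intro y hy hyS
    rw [hS] at hyS
    obtain ⟨Φ, hΦ, rfl⟩ := hyS
    exact hcon Φ (nonZeroDivisors.ne_zero hΦ) hy
  obtain ⟨𝔭, h𝔭, hJ, hdis'⟩ := Ideal.exists_le_prime_disjoint J S hdis
  have h1 : ringKrullDim (R ⧸ 𝔭) ≤ ringKrullDim (R ⧸ J) :=
    ringKrullDim_le_of_surjective (Ideal.Quotient.factor hJ) (Ideal.Quotient.factor_surjective hJ)
  obtain ⟨Φ, hΦ, hmem⟩ := exists_rel 𝔭 h𝔭 (h1.trans hd)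
  rw [Set.disjoint_left] at hdis'
  apply hdis' hmem
  rw [hS]
  exact ⟨Φ, mem_nonZeroDivisors_of_ne_zero hΦ, rfl⟩

lemma aeval_smul {K A : Type*} [CommSemiring K] [CommSemiring A] [Algebra K A] {m : ℕ}
    {f : MvPolynomial (Fin 3) K} (hf : f.IsHomogeneous m) (a : A) (g : Fin 3 → A) :
    aeval (fun i => a * g i) f = a ^ m * aeval g f := by
  rw [aeval_sum hf, aeval_sum hf, Finset.mul_sum]
  refine Finset.sum_congr rfl fun e he => ?_
  rw [mem_Ex] at he
  rw [mul_smul_comm]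
  congr 1
  simp only [mul_pow]
  rw [Finset.prod_mul_distrib, Finset.prod_pow_eq_pow_sum, Fin.sum_univ_three, he]

lemma exists_form (𝔭 : Ideal R) (hd : ringKrullDim (R ⧸ 𝔭) ≤ 3) :
    ∃ (m : ℕ) (f : MvPolynomial (Fin 3) ℚ), f.IsHomogeneous m ∧ f ≠ 0 ∧
      ∀ (v : Fin 3 → ℚ) (W : ℚ), (∀ l μ : ℚ, l ≠ 0 → μ ≠ 0 → ∀ F ∈ 𝔭,
        aeval (Sum.elim ![l * v 0, l * v 1, l * v 2, l * W] ![0, μ]) F = 0) →
          aeval v f = 0 := by
  obtain ⟨Φ, hΦ, hmem⟩ := exists_rel' 𝔭 hd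
  obtain ⟨y, hy⟩ : ∃ y : Fin 4 → ℚ, eval y (Φ * X 3) ≠ 0 := by
    by_contra h
    push Not at h
    have h1 : Φ * X 3 = 0 := MvPolynomial.funext fun z => by rw [h z, map_zero]
    exact (mul_ne_zero hΦ (X_ne_zero _)) h1
  rw [map_mul, eval_X] at hy
  have hμ : y 3 ≠ 0 := right_ne_zero_of_mul hy
  have hΦy : eval y Φ ≠ 0 := left_ne_zero_of_mul hy
  obtain ⟨f0, hf0⟩ : ∃ f0 : MvPolynomial (Fin 3) ℚ, f0 = aeval ![X 0, X 1, X 2, C (y 3)] Φ :=
    ⟨_, rfl⟩
  have hev : ∀ w : Fin 3 → ℚ, aeval w f0 = aeval ![w 0, w 1, w 2, y 3] Φ := by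
    intro w
    rw [hf0, ← AlgHom.comp_apply, comp_aeval]
    congr 2
    funext i
    fin_cases i <;> simp
  have hne : f0 ≠ 0 := by
    intro h
    have h1 := hev ![y 0, y 1, y 2]
    rw [h, map_zero] at h1
    apply hΦy
    rw [← coe_aeval_eq_eval]
    change aeval y Φ = 0
    rw [h1]
    congr 2
    funext i
    fin_cases i <;> rfl
  obtain ⟨m, hm⟩ : ∃ m, homogeneousComponent m f0 ≠ 0 := by
    by_contra h
    push Not at h
    apply hne
    rw [← sum_homogeneousComponent f0]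
    exact Finset.sum_eq_zero fun i _ => h i
  refine ⟨m, homogeneousComponent m f0, homogeneousComponent_isHomogeneous m f0, hm, ?_⟩
  intro v W hvan
  have h0 : ∀ l : ℚ, l ≠ 0 → aeval (fun i => l * v i) f0 = 0 := by
    intro l hl
    rw [hev]
    have h1 := hvan l (y 3) hl hμ _ hmem
    rw [← AlgHom.comp_apply, comp_aeval] at h1
    rw [← h1]
    congr 2
    funext i
    fin_cases i <;> simp [el]
  obtain ⟨q, hq⟩ : ∃ q : Polynomial ℚ, q = ∑ i ∈ Finset.range (f0.totalDegree + 1),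
      Polynomial.monomial i (aeval v (homogeneousComponent i f0)) := ⟨_, rfl⟩
  have hq1 : ∀ l : ℚ, Polynomial.eval l q = aeval (fun i => l * v i) f0 := by
    intro l
    conv_rhs => rw [← sum_homogeneousComponent f0]
    rw [hq, Polynomial.eval_finset_sum, map_sum]
    refine Finset.sum_congr rfl fun i _ => ?_
    rw [Polynomial.eval_monomial, aeval_smul (homogeneousComponent_isHomogeneous i f0), mul_comm]
  have hq0 : q = 0 := by
    have h1 : q * Polynomial.X = 0 := by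
      apply Polynomial.funext
      intro l
      rw [Polynomial.eval_mul, Polynomial.eval_X, Polynomial.eval_zero]
      by_cases hl : l = 0
      · rw [hl, mul_zero]
      · rw [hq1, h0 l hl, zero_mul]
    exact (mul_eq_zero.1 h1).resolve_right Polynomial.X_ne_zero
  have h2 := congrArg (fun p => Polynomial.coeff p m) hq0
  simp only [hq, Polynomial.finset_sum_coeff, Polynomial.coeff_monomial,
    Polynomial.coeff_zero] at h2
  rw [Finset.sum_ite_eq' ] at h2
  by_cases hmr : m ∈ Finset.range (f0.totalDegree + 1)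
  · rwa [if_pos hmr] at h2
  · exfalso
    apply hm
    apply homogeneousComponent_eq_zero
    rw [Finset.mem_range] at hmr
    omega

end Pool.Agent.Y738.BC
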