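import Mathlib
import Pool.Agent.Y738.BC.Germ

set_option autoImplicit false

/-!
# No form vanishes along a sequence of integral points which is very close to a line
-/

namespace Pool.Agent.Y738.BC

open Filter Topology MvPolynomial Pool.Agent.TH932.Germs Pool.Agent.TH796.AL

section main

variable {F : IntermediateField ℚ ℝ} {c d : F} {L : ℕ → ℝ} {v : ℕ → Fin 3 → ℤ}

/-- the monomials in the germs of the coordinates after the linear substitution -/
noncomputable def Zm (c d : F) (v : ℕ → Fin 3 → ℤ) (e : Fin 3 →₀ ℕ) : HR :=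
  ∏ i, yv c d v i ^ e i

/-- the monomials in the germs of the coordinates -/
noncomputable def Um (v : ℕ → Fin 3 → ℤ) (e : Fin 3 →₀ ℕ) : HR := ∏ i, gv v i ^ e i

/-- the monomials in the rational germs of the coordinates -/
noncomputable def um (v : ℕ → Fin 3 → ℤ) (e : Fin 3 →₀ ℕ) : GG := ∏ i, gi v i ^ e i

lemma rho_um (e : Fin 3 →₀ ℕ) : rho (um v e) = Um v e := by
  simp [um, Um, gv, map_prod, map_pow]

/-- the statement that no form of degree `m` vanishes -/
def Qm (c d : F) (v : ℕ → Fin 3 → ℤ) (m : ℕ) : Prop :=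
  ∀ f : MvPolynomial (Fin 3) F, f.IsHomogeneous m → aeval (yv c d v) f = 0 → f = 0

lemma um_int (v : ℕ → Fin 3 → ℤ) (e : Fin 3 →₀ ℕ) :
    um v e = gm fun n => ((∏ i, v n i ^ e i : ℤ) : ℚ) := by
  unfold um gi
  rw [Fin.prod_univ_three, gm_pow, gm_pow, gm_pow, gm_mul, gm_mul]
  congr 1
  funext n
  rw [Fin.prod_univ_three]
  push_cast
  rfl

/-- the trivial base -/
def B0 : Base 0 where
  P := fun i => i.elim0
  two := fun i => i.elim0
  cop := fun i => i.elim0

lemma um_sint (hL : Tendsto L atTop atTop) (e : Fin 3 →₀ ℕ) : Sint B0 L (um v e) := by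
  refine ⟨0, ?_⟩
  rw [um_int, mem_SS]
  intro ε hε
  filter_upwards [ev_of_atTop (hL.eventually_ge_atTop 0)] with n hn
  refine ⟨1, ∏ i, v n i ^ e i, fun i => i.elim0, one_ne_zero, ?_, ?_, fun i => i.elim0⟩
  · rw [Int.cast_one, abs_one]
    exact Real.one_le_exp (mul_nonneg hε.le hn)
  · simp

lemma indep_of_Qm {m : ℕ} (h0 : yv c d v 0 ≠ 0) (hm : Qm c d v m) :
    LinearIndepOn F (Zm c d v) (↑((Ex (m + 1)).filter fun e => 1 ≤ e 0) : Set (Fin 3 →₀ ℕ)) := by
  rw [linearIndepOn_finset_iff]
  intro a ha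
  set s := (Ex (m + 1)).filter fun e => 1 ≤ e 0 with hs
  set f : MvPolynomial (Fin 3) F := ∑ e ∈ s, monomial (e - Finsupp.single 0 1) (a e) with hf
  have hle : ∀ e ∈ s, Finsupp.single 0 1 ≤ e := by
    intro e he
    rw [Finsupp.single_le_iff]
    exact (Finset.mem_filter.1 he).2
  have hmul : f * X 0 = ∑ e ∈ s, monomial e (a e) := by
    rw [hf, Finset.sum_mul]
    refine Finset.sum_congr rfl fun e he => ?_
    rw [X, monomial_mul, tsub_add_cancel_of_le (hle e he), mul_one]
  have hhom : f.IsHomogeneous m := by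
    refine IsHomogeneous.sum _ _ _ fun e he => ?_
    apply isHomogeneous_monomial
    have h1 := (Finset.mem_filter.1 he).1
    have h2 := (Finset.mem_filter.1 he).2
    rw [mem_Ex] at h1
    rw [deg_eq]
    simp
    omega
  have hz : aeval (yv c d v) f = 0 := by
    have h1 : aeval (yv c d v) f * yv c d v 0 = 0 := by
      have h2 : aeval (yv c d v) (f * X 0) = aeval (yv c d v) f * yv c d v 0 := by
        rw [map_mul, aeval_X]
      rw [← h2, hmul, map_sum, ← ha]
      refine Finset.sum_congr rfl fun e _ => ?_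
      rw [aeval_mon]
      rfl
    exact (mul_eq_zero.1 h1).resolve_right h0
  have hf0 := hm f hhom hz
  rw [hf0, zero_mul] at hmul
  intro e he
  have h3 := congrArg (coeff e) hmul
  rw [coeff_zero, coeff_sum, Finset.sum_eq_single e] at h3
  · rw [coeff_monomial, if_pos rfl] at h3
    exact h3.symm
  · intro e' _ hne
    rw [coeff_monomial, if_neg hne]
  · intro h
    exact (h he).elim

lemma span_eq (m : ℕ) : Submodule.span F (Zm c d v '' (↑(Ex m) : Set (Fin 3 →₀ ℕ))) =
    Submodule.span F (Um v '' (↑(Ex m) : Set (Fin 3 →₀ ℕ))) := by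
  apply le_antisymm
  · rw [Submodule.span_le]
    rintro _ ⟨e, he, rfl⟩
    have h1 : Zm c d v e = aeval (gv v) (∏ i, lin c d i ^ e i) := by
      rw [map_prod]
      simp only [map_pow]
      rfl
    have h2 : (∏ i, lin c d i ^ e i).IsHomogeneous m := by
      have h3 : (∏ i, lin c d i ^ e i).IsHomogeneous (∑ i, 1 * e i) :=
        IsHomogeneous.prod _ _ _ fun i _ => (lin_hom c d i).pow (e i)
      have h4 : ∑ i, 1 * e i = m := by
        have := mem_Ex.1 he
        simp [Fin.sum_univ_three]
        omega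
      rwa [h4] at h3
    rw [h1, aeval_sum h2]
    refine Submodule.sum_mem _ fun e' he' => Submodule.smul_mem _ _ ?_
    exact Submodule.subset_span ⟨e', he', rfl⟩
  · rw [Submodule.span_le]
    rintro _ ⟨e, he, rfl⟩
    have h1 : Um v e = aeval (yv c d v) (∏ i, lin (-c) (-d) i ^ e i) := by
      have h5 : aeval (yv c d v) (∏ i, lin (-c) (-d) i ^ e i) =
          aeval (gv v) (aeval (lin c d) (∏ i, lin (-c) (-d) i ^ e i)) := by
        rw [← AlgHom.comp_apply, comp_aeval]
        rfl
      rw [h5, map_prod]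
      simp only [map_pow]
      have h6 : ∀ i, aeval (lin c d) (lin (-c) (-d) i) = X i := by
        intro i
        have := lin_lin c d (X i : MvPolynomial (Fin 3) F)
        rwa [aeval_X] at this
      simp only [h6]
      rw [map_prod]
      simp only [map_pow, aeval_X]
      rfl
    have h2 : (∏ i, lin (-c) (-d) i ^ e i).IsHomogeneous m := by
      have h3 : (∏ i, lin (-c) (-d) i ^ e i).IsHomogeneous (∑ i, 1 * e i) :=
        IsHomogeneous.prod _ _ _ fun i _ => (lin_hom (-c) (-d) i).pow (e i)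
      have h4 : ∑ i, 1 * e i = m := by
        have := mem_Ex.1 he
        simp [Fin.sum_univ_three]
        omega
      rwa [h4] at h3
    rw [h1, aeval_sum h2]
    refine Submodule.sum_mem _ fun e' he' => Submodule.smul_mem _ _ ?_
    exact Submodule.subset_span ⟨e', he', rfl⟩

lemma Qm_of_indep {m : ℕ} (h : LinearIndepOn F (Zm c d v) (↑(Ex m) : Set (Fin 3 →₀ ℕ))) :
    Qm c d v m := by
  intro f hf h0
  rw [aeval_sum hf] at h0
  rw [linearIndepOn_finset_iff] at h
  have h1 := h (fun e => coeff e f) h0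
  refine MvPolynomial.ext _ _ fun e => ?_
  by_contra hne
  rw [coeff_zero] at hne
  exact hne (h1 e (hom_mem hf hne))

theorem Sm.step [FiniteDimensional ℚ F] (h : Sm c d L v) {m : ℕ} (hm : Qm c d v m) :
    Qm c d v (m + 1) := by
  classical
  apply Qm_of_indep
  have hs := indep_of_Qm h.yv_ne hm
  obtain ⟨b, hbt, hsb, hspan, hb⟩ := exists_linearIndepOn_extension hs
    (t := (↑(Ex (m + 1)) : Set (Fin 3 →₀ ℕ))) (by
      intro e he
      exact (Finset.mem_filter.1 he).1)
  obtain ⟨b', hbt', _, hspan', hb'⟩ := exists_linearIndepOn_extension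
    (linearIndepOn_empty F (Um v)) (Set.empty_subset (↑(Ex (m + 1)) : Set (Fin 3 →₀ ℕ)))
  have hfin : b.Finite := (Ex (m + 1)).finite_toSet.subset hbt
  have hfin' : b'.Finite := (Ex (m + 1)).finite_toSet.subset hbt'
  haveI : Fintype b := hfin.fintype
  haveI : Fintype b' := hfin'.fintype
  have e1 : Submodule.span F (Zm c d v '' b) =
      Submodule.span F (Zm c d v '' (↑(Ex (m + 1)) : Set (Fin 3 →₀ ℕ))) :=
    le_antisymm (Submodule.span_mono (Set.image_mono hbt)) (Submodule.span_le.2 hspan)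
  have e2 : Submodule.span F (Um v '' b') =
      Submodule.span F (Um v '' (↑(Ex (m + 1)) : Set (Fin 3 →₀ ℕ))) :=
    le_antisymm (Submodule.span_mono (Set.image_mono hbt')) (Submodule.span_le.2 hspan')
  have e3 : Submodule.span F (Zm c d v '' b) = Submodule.span F (Um v '' b') := by
    rw [e1, e2, span_eq]
  have hcard : Fintype.card b = Fintype.card b' := by
    rw [← finrank_span_eq_card hb, ← finrank_span_eq_card hb', ← Set.image_eq_range,
      ← Set.image_eq_range, e3]
  let ε : b ≃ Fin (Fintype.card b) := Fintype.equivFin b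
  let ε' : b' ≃ Fin (Fintype.card b) := Fintype.equivFinOfCardEq hcard.symm
  have key := Fix.fixa_thm 0 B0 L h.hL F inferInstance (Fintype.card b)
    (fun j => um v (ε'.symm j)) (fun j => Zm c d v (ε.symm j)) (fun i => i.elim0)
    (fun j => 3 * ((ε.symm j : Fin 3 →₀ ℕ) 0 : ℝ) - (m + 1 : ℕ))
    (by
      intro a ha i
      have h1 : LinearIndependent F fun j => Um v (ε'.symm j) :=
        hb'.comp _ ε'.symm.injective
      rw [Fintype.linearIndependent_iff] at h1
      have h2 := h1 (fun j => (a j : F)) (by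
        have h3 := congrArg rho ha
        rw [map_zero, map_sum] at h3
        rw [← h3]
        refine Finset.sum_congr rfl fun j _ => ?_
        rw [map_mul, rho_um, Algebra.smul_def]
        simp) i
      exact_mod_cast h2)
    (hb.comp _ ε.symm.injective)
    (by
      intro i
      have h1 : Set.range (fun j => rho (um v (ε'.symm j))) = Um v '' b' := by
        rw [Set.image_eq_range]
        ext y
        constructor
        · rintro ⟨j, rfl⟩
          exact ⟨ε'.symm j, (rho_um _).symm⟩
        · rintro ⟨j, rfl⟩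
          refine ⟨ε' j, ?_⟩
          change rho (um v (ε'.symm (ε' j))) = _
          rw [rho_um, Equiv.symm_apply_apply]
      rw [h1, ← e3]
      exact Submodule.subset_span ⟨_, (ε.symm i).2, rfl⟩)
    (fun i => i.elim0)
    (by
      intro i
      exact h.mon_mem (hbt (ε.symm i).2))
    (fun i => um_sint h.hL _)
  rw [Finset.univ_eq_empty, Finset.sum_empty, zero_add,
    Equiv.sum_comp ε.symm (fun y : b => 3 * ((y : Fin 3 →₀ ℕ) 0 : ℝ) - (m + 1 : ℕ))] at key
  have key2 : ∑ e ∈ b.toFinset, (3 * (e 0 : ℝ) - (m + 1 : ℕ)) ≤ 0 := by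
    rw [← Finset.sum_set_coe b (f := fun e : Fin 3 →₀ ℕ => 3 * (e 0 : ℝ) - (m + 1 : ℕ))]
    exact key
  have hbE : b.toFinset ⊆ Ex (m + 1) := by
    intro e he
    exact hbt (Set.mem_toFinset.1 he)
  have key3 := Finset.sum_sdiff (f := fun e : Fin 3 →₀ ℕ => 3 * (e 0 : ℝ) - (m + 1 : ℕ)) hbE
  rw [sum_Ex] at key3
  have key4 : ∑ e ∈ Ex (m + 1) \ b.toFinset, (3 * (e 0 : ℝ) - (m + 1 : ℕ)) =
      ∑ e ∈ Ex (m + 1) \ b.toFinset, (-((m + 1 : ℕ) : ℝ)) := by
    refine Finset.sum_congr rfl fun e he => ?_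
    rw [Finset.mem_sdiff] at he
    have h5 : e 0 = 0 := by
      by_contra h6
      apply he.2
      rw [Set.mem_toFinset]
      apply hsb
      rw [Finset.mem_coe, Finset.mem_filter]
      exact ⟨he.1, by omega⟩
    rw [h5]
    simp
  have key5 : Ex (m + 1) \ b.toFinset = ∅ := by
    by_contra h7
    have h8 := Finset.nonempty_iff_ne_empty.2 h7
    have h9 : 0 < ((Ex (m + 1) \ b.toFinset).card : ℝ) := by
      exact_mod_cast Finset.card_pos.2 h8
    rw [Finset.sum_const, nsmul_eq_mul] at key4
    have h10 : (0 : ℝ) < ((m + 1 : ℕ) : ℝ) := by positivity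
    nlinarith [mul_pos h9 h10]
  rw [Finset.sdiff_eq_empty_iff_subset] at key5
  refine hb.mono ?_
  intro e he
  exact Set.mem_toFinset.1 (key5 he)

end main

end Pool.Agent.Y738.BC
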