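import Mathlib
import Pool.Agent.Y738.BC.Sub

set_option autoImplicit false

/-!
# No form vanishes along a sequence of integral points with small norms
-/

namespace Pool.Agent.Y738.BC

open Filter Topology MvPolynomial Pool.Agent.TH932.Germs Pool.Agent.TH796.AL

section main

variable {F : IntermediateField ℚ ℝ} {c d : F} {L : ℕ → ℝ} {v : ℕ → Fin 3 → ℤ}

lemma Qm_zero : Qm c d v 0 := by
  intro f hf h0
  have h1 : f.totalDegree = 0 := Nat.le_zero.1 hf.totalDegree_le
  rw [totalDegree_eq_zero_iff_eq_C] at h1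
  rw [h1, aeval_C] at h0
  rw [h1, (algebraMap F HR).injective (h0.trans (map_zero _).symm), map_zero]

theorem Sm.all [FiniteDimensional ℚ F] (h : Sm c d L v) (m : ℕ) : Qm c d v m := by
  induction m with
  | zero => exact Qm_zero
  | succ m ih => exact h.step ih

/-- no form vanishes at the germ of the sequence -/
def NF (F : IntermediateField ℚ ℝ) (v : ℕ → Fin 3 → ℤ) : Prop :=
  ∀ (m : ℕ) (f : MvPolynomial (Fin 3) F), f.IsHomogeneous m → aeval (gv v) f = 0 → f = 0

theorem Sm.nf [FiniteDimensional ℚ F] (h : Sm c d L v) : NF F v := by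
  intro m f hf h0
  have h1 : aeval (yv c d v) (aeval (lin (-c) (-d)) f) = 0 := by
    have h5 : aeval (yv c d v) (aeval (lin (-c) (-d)) f) =
        aeval (gv v) (aeval (lin c d) (aeval (lin (-c) (-d)) f)) := by
      rw [← AlgHom.comp_apply (aeval (gv v)), comp_aeval]
      rfl
    rw [h5, lin_lin, h0]
  have h2 : (aeval (lin (-c) (-d)) f).IsHomogeneous (1 * m) :=
    hf.aeval _ (lin_hom (-c) (-d))
  have h3 := h.all _ _ h2 h1
  rw [← lin_lin c d f, h3, map_zero]

/-! ## the quadratic transformation -/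

/-- the norm form -/
noncomputable def Nm (K : Type*) [CommRing K] : MvPolynomial (Fin 3) K :=
  X 0 ^ 3 + 2 * X 1 ^ 3 + 4 * X 2 ^ 3 - 6 * X 0 * X 1 * X 2

/-- the quadratic transformation -/
noncomputable def sh (K : Type*) [CommRing K] : Fin 3 → MvPolynomial (Fin 3) K :=
  ![X 0 ^ 2 - 2 * X 1 * X 2, 2 * X 2 ^ 2 - X 0 * X 1, X 1 ^ 2 - X 0 * X 2]

/-- the quadratic transformation for sequences -/
def vs (v : ℕ → Fin 3 → ℤ) (n : ℕ) : Fin 3 → ℤ :=
  ![v n 0 ^ 2 - 2 * v n 1 * v n 2, 2 * v n 2 ^ 2 - v n 0 * v n 1, v n 1 ^ 2 - v n 0 * v n 2]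

lemma sh_hom {K : Type*} [CommRing K] (i : Fin 3) : (sh K i).IsHomogeneous 2 := by
  have hX : ∀ i : Fin 3, (X i : MvPolynomial (Fin 3) K).IsHomogeneous 1 :=
    fun i => isHomogeneous_X _ _
  have h2 : (2 : MvPolynomial (Fin 3) K) = C 2 := (map_ofNat C 2).symm
  fin_cases i
  · change (X 0 ^ 2 - 2 * X 1 * X 2 : MvPolynomial (Fin 3) K).IsHomogeneous 2
    rw [h2]
    exact ((hX 0).pow 2).sub (((hX 1).C_mul 2).mul (hX 2))
  · change (2 * X 2 ^ 2 - X 0 * X 1 : MvPolynomial (Fin 3) K).IsHomogeneous 2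
    rw [h2]
    exact (((hX 2).pow 2).C_mul 2).sub ((hX 0).mul (hX 1))
  · change (X 1 ^ 2 - X 0 * X 2 : MvPolynomial (Fin 3) K).IsHomogeneous 2
    exact ((hX 1).pow 2).sub ((hX 0).mul (hX 2))

lemma sh_sh {K : Type*} [CommRing K] (i : Fin 3) : aeval (sh K) (sh K i) = Nm K * X i := by
  fin_cases i
  · simp only [sh, Nm, Fin.zero_eta, Matrix.cons_val_zero, map_sub, map_pow, map_mul, aeval_X,
      map_ofNat, Matrix.cons_val_one, Matrix.cons_val]
    ring
  · simp only [sh, Nm, Fin.mk_one, Matrix.cons_val_zero, map_sub, map_pow, map_mul, aeval_X,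
      map_ofNat, Matrix.cons_val_one, Matrix.cons_val]
    ring
  · simp only [sh, Nm, Fin.reduceFinMk, Matrix.cons_val_zero, map_sub, map_pow, map_mul, aeval_X,
      map_ofNat, Matrix.cons_val_one, Matrix.cons_val]
    ring

lemma Nm_ne {K : Type*} [Field K] : Nm K ≠ 0 := by
  intro h
  have h1 := congrArg (aeval (![1, 0, 0] : Fin 3 → K)) h
  simp [Nm] at h1

lemma aeval_smulX {K : Type*} [CommRing K] {m : ℕ} {f : MvPolynomial (Fin 3) K}
    (hf : f.IsHomogeneous m) (a : MvPolynomial (Fin 3) K) :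
    aeval (fun i => a * X i) f = a ^ m * f := by
  have h1 : f = aeval (X : Fin 3 → MvPolynomial (Fin 3) K) f := by simp
  conv_rhs => rw [h1]
  rw [aeval_sum hf, aeval_sum hf, Finset.mul_sum]
  refine Finset.sum_congr rfl fun e he => ?_
  rw [mem_Ex] at he
  rw [mul_smul_comm]
  congr 1
  simp only [mul_pow]
  rw [Finset.prod_mul_distrib, Finset.prod_pow_eq_pow_sum, Fin.sum_univ_three, he]

lemma gv_vs (i : Fin 3) : gv (vs v) i = aeval (gv v) (sh F i) := by
  have h2 : (2 : HR) = gr fun _ => 2 := by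
    have h : (2 : HR) = algebraMap ℝ HR 2 := (map_ofNat _ 2).symm
    rw [h, cst_eq]
  have hp : ∀ a : ℕ → ℝ, gr a ^ 2 = gr fun n => a n ^ 2 := by
    intro a
    rw [sq, gr_mul]
    congr 1
    funext n
    ring
  rw [gv_eq]
  fin_cases i
  · simp only [sh, vs, Fin.zero_eta, Matrix.cons_val_zero, map_sub, map_pow, map_mul, aeval_X,
      map_ofNat, gv_eq]
    rw [h2, hp, gr_mul, gr_mul, gr_sub]
    congr 1
    funext n
    push_cast
    ring
  · simp only [sh, vs, Fin.mk_one, Matrix.cons_val_one, Matrix.cons_val_zero, map_sub, map_pow,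
      map_mul, aeval_X, map_ofNat, gv_eq]
    rw [h2, hp, gr_mul, gr_mul, gr_sub]
    congr 1
    funext n
    push_cast
    ring
  · simp only [sh, vs, Fin.reduceFinMk, Matrix.cons_val, map_sub, map_pow,
      map_mul, aeval_X, gv_eq]
    rw [hp, gr_mul, gr_sub]
    congr 1
    funext n
    push_cast
    ring

theorem nf_of_vs (h : NF F (vs v)) : NF F v := by
  intro m f hf h0
  have h1 : aeval (gv (vs v)) (aeval (sh F) f) = 0 := by
    rw [← AlgHom.comp_apply, comp_aeval]
    have h2 : (fun i => aeval (gv (vs v)) (sh F i)) =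
        fun i => aeval (gv v) (Nm F * X i) := by
      funext i
      rw [← sh_sh, ← AlgHom.comp_apply (aeval (gv v)), comp_aeval]
      congr 2
      funext j
      exact gv_vs j
    rw [h2]
    have h3 : aeval (fun i => aeval (gv v) (Nm F * X i)) f =
        aeval (gv v) (aeval (fun i => Nm F * X i) f) := by
      rw [← AlgHom.comp_apply (aeval (gv v)), comp_aeval]
    rw [h3, aeval_smulX hf, map_mul, h0, mul_zero]
  have h4 := h _ _ (hf.aeval _ sh_hom) h1
  have h5 : aeval (sh F) (aeval (sh F) f) = Nm F ^ m * f := by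
    rw [← AlgHom.comp_apply, comp_aeval]
    simp only [sh_sh]
    exact aeval_smulX hf _
  rw [h4, map_zero] at h5
  exact (mul_eq_zero.1 h5.symm).resolve_left (pow_ne_zero _ Nm_ne)

lemma aeval_gv (f : MvPolynomial (Fin 3) F) :
    aeval (gv v) f = gr fun n => aeval (fun i => (v n i : ℝ)) f := by
  induction f using MvPolynomial.induction_on with
  | C a =>
    rw [aeval_C]
    simp only [aeval_C]
    rfl
  | add p q hp hq =>
    rw [map_add, hp, hq, gr_add]
    simp only [map_add]
  | mul_X p i hp =>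
    rw [map_mul, hp, aeval_X, gv_eq, gr_mul]
    simp only [map_mul, aeval_X]

end main

end Pool.Agent.Y738.BC
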