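import Mathlib
import Pool.Agent.Y738.BC.Form

set_option autoImplicit false

/-!
# Integral points with small norms in the cubic field are Zariski dense
-/

namespace Pool.Agent.Y738.BC

open Filter Topology MvPolynomial Pool.Agent.TH932.Germs Pool.Agent.TH796.AL

/-- the size of an integral point -/
noncomputable def nm (w : Fin 3 → ℤ) : ℝ := max |(w 0 : ℝ)| (max |(w 1 : ℝ)| |(w 2 : ℝ)|)

/-- the norm form -/
def Nz (x y z : ℤ) : ℤ := x ^ 3 + 2 * y ^ 3 + 4 * z ^ 3 - 6 * x * y * z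

lemma Nz_dvd {x y z : ℤ} (h : Nz x y z = 0) : 2 ∣ x ∧ 2 ∣ y ∧ 2 ∣ z := by
  unfold Nz at h
  have h1 : (2 : ℤ) ∣ x :=
    Int.prime_two.dvd_of_dvd_pow (n := 3) ⟨-(y ^ 3 + 2 * z ^ 3 - 3 * x * y * z), by linarith⟩
  obtain ⟨x', rfl⟩ := h1
  have h2 : (2 : ℤ) ∣ y :=
    Int.prime_two.dvd_of_dvd_pow (n := 3) ⟨-(2 * x' ^ 3 + z ^ 3 - 3 * x' * y * z), by linarith⟩
  obtain ⟨y', rfl⟩ := h2
  have h3 : (2 : ℤ) ∣ z :=
    Int.prime_two.dvd_of_dvd_pow (n := 3) ⟨-(x' ^ 3 + 2 * y' ^ 3 - 3 * x' * y' * z), by linarith⟩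
  exact ⟨⟨x', rfl⟩, ⟨y', rfl⟩, h3⟩

lemma Nz_aux (n : ℕ) : ∀ x y z : ℤ, x.natAbs + y.natAbs + z.natAbs ≤ n → Nz x y z = 0 →
    x = 0 ∧ y = 0 ∧ z = 0 := by
  induction n with
  | zero => intro x y z h _; omega
  | succ n ih =>
    intro x y z h h0
    obtain ⟨⟨x', rfl⟩, ⟨y', rfl⟩, ⟨z', rfl⟩⟩ := Nz_dvd h0
    have h1 : Nz x' y' z' = 0 := by
      unfold Nz at h0 ⊢
      linarith
    have h2 := ih x' y' z' (by omega) h1
    omega

lemma Nz_zero {x y z : ℤ} (h : Nz x y z = 0) : x = 0 ∧ y = 0 ∧ z = 0 :=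
  Nz_aux _ x y z le_rfl h

lemma nm_pos {w : Fin 3 → ℤ} (hw : w ≠ 0) : 1 ≤ nm w := by
  have h1 : ∃ i, w i ≠ 0 := by
    by_contra h
    push Not at h
    exact hw (funext h)
  obtain ⟨i, hi⟩ := h1
  have h2 : (1 : ℝ) ≤ |(w i : ℝ)| := by exact_mod_cast Int.one_le_abs hi
  refine h2.trans ?_
  unfold nm
  fin_cases i
  · exact le_max_left _ _
  · exact (le_max_left _ _).trans (le_max_right _ _)
  · exact (le_max_right _ _).trans (le_max_right _ _)

lemma abs_le_nm (w : Fin 3 → ℤ) (i : Fin 3) : |(w i : ℝ)| ≤ nm w := by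
  unfold nm
  fin_cases i
  · exact le_max_left _ _
  · exact (le_max_left _ _).trans (le_max_right _ _)
  · exact (le_max_right _ _).trans (le_max_right _ _)

lemma Nz_ne {w : Fin 3 → ℤ} (hw : w ≠ 0) : Nz (w 0) (w 1) (w 2) ≠ 0 := by
  intro h
  obtain ⟨h0, h1, h2⟩ := Nz_zero h
  apply hw
  funext i
  fin_cases i
  · exact h0
  · exact h1
  · exact h2

/-- the real cube root of two -/
noncomputable def th : ℝ := (2 : ℝ) ^ ((1 : ℝ) / 3)

lemma th3 : th ^ 3 = 2 := by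
  unfold th
  rw [← Real.rpow_natCast, ← Real.rpow_mul (by norm_num)]
  norm_num

lemma th_pos : 0 < th := Real.rpow_pos_of_pos (by norm_num) _

lemma th_one : 1 < th := by
  by_contra h
  push Not at h
  have h1 : th ^ 3 ≤ 1 := pow_le_one₀ th_pos.le h
  rw [th3] at h1
  norm_num at h1

lemma th_two : th < 2 := by
  by_contra h
  push Not at h
  have h1 : (2 : ℝ) ^ 3 ≤ th ^ 3 := pow_le_pow_left₀ (by norm_num) h 3
  rw [th3] at h1
  norm_num at h1

/-- the cubic field -/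
noncomputable abbrev KT : IntermediateField ℚ ℝ := IntermediateField.adjoin ℚ {th}

instance : FiniteDimensional ℚ KT := by
  apply IntermediateField.adjoin.finiteDimensional
  refine ⟨Polynomial.X ^ 3 - Polynomial.C 2, Polynomial.monic_X_pow_sub_C _ (by norm_num), ?_⟩
  simp [th3]

/-- the cube root of two in the cubic field -/
noncomputable def tK : KT := ⟨th, IntermediateField.mem_adjoin_simple_self ℚ th⟩

section real

variable (x y z : ℝ)

/-- the real linear form -/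
noncomputable def XX3 : ℝ := x + th * y + th ^ 2 * z

/-- the quadratic form -/
noncomputable def SS3 : ℝ :=
  (x ^ 2 - 2 * y * z) + th * (2 * z ^ 2 - x * y) + th ^ 2 * (y ^ 2 - x * z)

lemma XS : XX3 x y z * SS3 x y z = x ^ 3 + 2 * y ^ 3 + 4 * z ^ 3 - 6 * x * y * z := by
  unfold XX3 SS3
  linear_combination (y ^ 3 + 2 * z ^ 3 - 2 * x * y * z + th * y ^ 2 * z - th * x * z ^ 2) * th3

lemma X2S : XX3 x y z ^ 2 + 2 * SS3 x y z = 3 * (x ^ 2 + th ^ 2 * y ^ 2 + th ^ 4 * z ^ 2) := by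
  unfold XX3 SS3
  linear_combination (2 * y * z - 2 * th * z ^ 2) * th3

lemma SS3_nonneg : 0 ≤ SS3 x y z := by
  have h : 2 * SS3 x y z = (x - th * y) ^ 2 + (th * y - th ^ 2 * z) ^ 2 +
      (x - th ^ 2 * z) ^ 2 := by
    unfold SS3
    linear_combination (2 * y * z - 2 * th * z ^ 2) * th3
  have h1 := add_nonneg (add_nonneg (sq_nonneg (x - th * y)) (sq_nonneg (th * y - th ^ 2 * z)))
    (sq_nonneg (x - th ^ 2 * z))
  linarith

lemma sq_le_XS (w : ℝ) (hw : w = x ∨ w = y ∨ w = z) :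
    3 * w ^ 2 ≤ XX3 x y z ^ 2 + 2 * SS3 x y z := by
  rw [X2S]
  have h1 := th_one
  have h2 : 1 ≤ th ^ 2 := one_le_pow₀ h1.le
  have h4 : 1 ≤ th ^ 4 := one_le_pow₀ h1.le
  have hx := sq_nonneg x
  have hy := sq_nonneg y
  have hz := sq_nonneg z
  have hy2 : y ^ 2 ≤ th ^ 2 * y ^ 2 := by nlinarith
  have hz2 : z ^ 2 ≤ th ^ 4 * z ^ 2 := by nlinarith
  rcases hw with rfl | rfl | rfl <;> linarith

end real

lemma SS3_vs (x y z : ℝ) : SS3 (x ^ 2 - 2 * y * z) (2 * z ^ 2 - x * y) (y ^ 2 - x * z) =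
    (x ^ 3 + 2 * y ^ 3 + 4 * z ^ 3 - 6 * x * y * z) * XX3 x y z := by
  unfold SS3 XX3
  ring

lemma XX3_vs (x y z : ℝ) : XX3 (x ^ 2 - 2 * y * z) (2 * z ^ 2 - x * y) (y ^ 2 - x * z) =
    SS3 x y z := rfl

lemma XX3_le (w : Fin 3 → ℤ) : |XX3 (w 0) (w 1) (w 2)| ≤ 7 * nm w := by
  have h1 := th_two
  have h0 := th_pos
  have h2 : th ^ 2 < 4 := by nlinarith
  have h3 : 0 < th ^ 2 := by positivity
  have a0 := abs_le_nm w 0
  have a1 := abs_le_nm w 1
  have a2 := abs_le_nm w 2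
  unfold XX3
  calc |(w 0 : ℝ) + th * w 1 + th ^ 2 * w 2| ≤ |(w 0 : ℝ) + th * w 1| + |th ^ 2 * w 2| :=
        abs_add_le _ _
    _ ≤ |(w 0 : ℝ)| + |th * w 1| + |th ^ 2 * w 2| := by gcongr; exact abs_add_le _ _
    _ = |(w 0 : ℝ)| + th * |(w 1 : ℝ)| + th ^ 2 * |(w 2 : ℝ)| := by
        rw [abs_mul, abs_mul, abs_of_pos h0, abs_of_pos h3]
    _ ≤ nm w + 2 * nm w + 4 * nm w := by gcongr
    _ = 7 * nm w := by ring

section seq

variable {v : ℕ → Fin 3 → ℤ} (hv0 : ∀ n, v n ≠ 0)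
  (hinf : Tendsto (fun n => nm (v n)) atTop atTop)
  (hN : ∀ ε : ℝ, 0 < ε → ∀ᶠ n in atTop,
    |(Nz (v n 0) (v n 1) (v n 2) : ℝ)| ≤ Real.exp (ε * Real.log (nm (v n))))

lemma Nz_cast (w : Fin 3 → ℤ) : (Nz (w 0) (w 1) (w 2) : ℝ) =
    XX3 (w 0) (w 1) (w 2) * SS3 (w 0) (w 1) (w 2) := by
  rw [XS]
  unfold Nz
  push_cast
  ring

include hv0 hinf hN in
lemma caseA (hA : ∀ᶠ n in (UU : Filter ℕ), nm (v n) ^ 2 ≤ SS3 (v n 0) (v n 1) (v n 2)) :
    Sm tK (tK ^ 2) (fun n => Real.log (nm (v n))) v where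
  hL := Real.tendsto_log_atTop.comp hinf
  hv := by
    intro i ε hε
    refine Eventually.of_forall fun n => ?_
    have h1 := nm_pos (hv0 n)
    refine (abs_le_nm (v n) i).trans ?_
    have h2 : nm (v n) = Real.exp (Real.log (nm (v n))) := (Real.exp_log (by linarith)).symm
    conv_lhs => rw [h2]
    apply Real.exp_le_exp.2
    have h3 := Real.log_nonneg h1
    nlinarith
  hX := by
    intro ε hε
    filter_upwards [hA, ev_of_atTop (hN ε hε)] with n h1 h2
    have h3 := nm_pos (hv0 n)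
    rw [Nz_cast, abs_mul] at h2
    change |XX3 (v n 0) (v n 1) (v n 2)| ≤ _
    have h4 : 0 < nm (v n) ^ 2 := by positivity
    have h5 : nm (v n) ^ 2 = Real.exp (2 * Real.log (nm (v n))) := by
      rw [mul_comm, Real.exp_mul, Real.exp_log (by linarith)]
      norm_cast
    have h6 : |XX3 (v n 0) (v n 1) (v n 2)| * nm (v n) ^ 2 ≤
        Real.exp (ε * Real.log (nm (v n))) := by
      refine le_trans ?_ h2
      gcongr
      exact h1.trans (le_abs_self _)
    rw [h5, ← le_div_iff₀ (Real.exp_pos _), ← Real.exp_sub] at h6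
    refine h6.trans (le_of_eq ?_)
    congr 1
    ring
  hX0 := by
    refine Eventually.of_forall fun n h => ?_
    have h1 := Nz_cast (v n)
    have h2 : XX3 (v n 0) (v n 1) (v n 2) = 0 := h
    rw [h2, zero_mul] at h1
    exact Nz_ne (hv0 n) (by exact_mod_cast h1)

include hv0 hinf hN in
lemma caseB (hB : ∀ᶠ n in (UU : Filter ℕ), nm (v n) ^ 2 ≤ XX3 (v n 0) (v n 1) (v n 2) ^ 2) :
    Sm tK (tK ^ 2) (fun n => Real.log (nm (v n)) / 2) (vs v) := by
  have hlog : Tendsto (fun n => Real.log (nm (v n))) atTop atTop :=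
    Real.tendsto_log_atTop.comp hinf
  have hSb : ∀ δ : ℝ, 0 < δ → ∀ᶠ n in (UU : Filter ℕ),
      |SS3 (v n 0) (v n 1) (v n 2)| ≤ Real.exp ((δ - 1) * Real.log (nm (v n))) := by
    intro δ hδ
    filter_upwards [hB, ev_of_atTop (hN δ hδ)] with n h1 h2
    have h3 := nm_pos (hv0 n)
    rw [Nz_cast, abs_mul] at h2
    have h4 : nm (v n) ≤ |XX3 (v n 0) (v n 1) (v n 2)| := by
      rw [← abs_of_pos (show 0 < nm (v n) by linarith)]
      exact sq_le_sq.1 h1
    have h5 : nm (v n) = Real.exp (Real.log (nm (v n))) := (Real.exp_log (by linarith)).symm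
    have h6 : |SS3 (v n 0) (v n 1) (v n 2)| * nm (v n) ≤
        Real.exp (δ * Real.log (nm (v n))) := by
      refine le_trans ?_ h2
      rw [mul_comm]
      gcongr
    conv_lhs at h6 => rw [h5]
    rw [← le_div_iff₀ (Real.exp_pos _), ← Real.exp_sub] at h6
    refine h6.trans (le_of_eq ?_)
    congr 1
    ring
  refine ⟨?_, ?_, ?_, ?_⟩
  · exact hlog.atTop_div_const (by norm_num)
  · intro i ε hε
    obtain ⟨δ, hδ⟩ : ∃ δ, δ = min (ε / 2) 1 := ⟨_, rfl⟩
    have hδ0 : 0 < δ := by rw [hδ]; positivity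
    have hδ1 : δ ≤ 1 := by rw [hδ]; exact min_le_right _ _
    have hδ2 : 2 * δ ≤ ε := by
      have := min_le_left (ε / 2) 1
      rw [← hδ] at this
      linarith
    have hbig : ∀ᶠ n in (UU : Filter ℕ), 5 ≤ Real.exp (δ * Real.log (nm (v n))) := by
      filter_upwards [ev_of_atTop (hlog.eventually_ge_atTop (5 / δ))] with n hn
      rw [div_le_iff₀ hδ0] at hn
      linarith [Real.add_one_le_exp (δ * Real.log (nm (v n)))]
    filter_upwards [hSb δ hδ0, ev_of_atTop (hN δ hδ0), hbig] with n h1 h2 h3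
    have h4 := nm_pos (hv0 n)
    have hl0 := Real.log_nonneg h4
    have h5 : Real.exp (Real.log (nm (v n))) = nm (v n) := Real.exp_log (by linarith)
    set l := Real.log (nm (v n)) with hl
    have h6 := XX3_le (v n)
    rw [← h5] at h6
    have h7 : (Nz (v n 0) (v n 1) (v n 2) : ℝ) =
      (v n 0 : ℝ) ^ 3 + 2 * (v n 1 : ℝ) ^ 3 + 4 * (v n 2 : ℝ) ^ 3 - 6 * v n 0 * v n 1 * v n 2 := by
      unfold Nz; push_cast; ring
    have h8 : 3 * (vs v n i : ℝ) ^ 2 ≤ SS3 (v n 0) (v n 1) (v n 2) ^ 2 +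
        2 * ((Nz (v n 0) (v n 1) (v n 2) : ℝ) * XX3 (v n 0) (v n 1) (v n 2)) := by
      rw [h7, ← SS3_vs, ← XX3_vs]
      apply sq_le_XS
      fin_cases i
      · left; simp [vs]
      · right; left; simp [vs]
      · right; right; simp [vs]
    have h9 : SS3 (v n 0) (v n 1) (v n 2) ^ 2 ≤ Real.exp ((1 + δ) * l) := by
      rw [← sq_abs]
      calc |SS3 (v n 0) (v n 1) (v n 2)| ^ 2 ≤ Real.exp ((δ - 1) * l) ^ 2 := by gcongr
        _ = Real.exp (2 * ((δ - 1) * l)) := by rw [← Real.exp_nat_mul]; norm_num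
        _ ≤ Real.exp ((1 + δ) * l) := by
          apply Real.exp_le_exp.2
          nlinarith
    have h10 : (Nz (v n 0) (v n 1) (v n 2) : ℝ) * XX3 (v n 0) (v n 1) (v n 2) ≤
        7 * Real.exp ((1 + δ) * l) := by
      refine (le_abs_self _).trans ?_
      rw [abs_mul]
      calc |(Nz (v n 0) (v n 1) (v n 2) : ℝ)| * |XX3 (v n 0) (v n 1) (v n 2)| ≤
          Real.exp (δ * l) * (7 * Real.exp l) := by gcongr
        _ = 7 * Real.exp ((1 + δ) * l) := by
          rw [show (1 + δ) * l = δ * l + l by ring, Real.exp_add]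
          ring
    have h11 : (vs v n i : ℝ) ^ 2 ≤ Real.exp ((1 + 2 * δ) * (l / 2)) ^ 2 := by
      have h12 : Real.exp ((1 + 2 * δ) * (l / 2)) ^ 2 =
          Real.exp (δ * l) * Real.exp ((1 + δ) * l) := by
        rw [← Real.exp_nat_mul, ← Real.exp_add]
        congr 1
        push_cast
        ring
      rw [h12]
      have h13 := Real.exp_pos ((1 + δ) * l)
      nlinarith
    have h14 := abs_le_of_sq_le_sq h11 (Real.exp_pos _).le
    refine h14.trans ?_
    apply Real.exp_le_exp.2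
    nlinarith
  · intro ε hε
    filter_upwards [hSb (ε / 2) (by positivity)] with n h1
    have h2 : (vs v n 0 : ℝ) + tK * vs v n 1 + (tK ^ 2 : KT) * vs v n 2 =
        SS3 (v n 0) (v n 1) (v n 2) := by
      rw [← XX3_vs]
      unfold XX3
      simp [vs, tK]
    rw [h2]
    refine h1.trans (le_of_eq ?_)
    congr 1
    ring
  · refine Eventually.of_forall fun n h => ?_
    have h2 : (vs v n 0 : ℝ) + tK * vs v n 1 + (tK ^ 2 : KT) * vs v n 2 =
        SS3 (v n 0) (v n 1) (v n 2) := by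
      rw [← XX3_vs]
      unfold XX3
      simp [vs, tK]
    rw [h2] at h
    have h1 := Nz_cast (v n)
    rw [h, mul_zero] at h1
    exact Nz_ne (hv0 n) (by exact_mod_cast h1)

include hv0 hinf hN in
lemma nf : NF KT v := by
  have h1 : ∀ᶠ n in (UU : Filter ℕ), nm (v n) ^ 2 ≤ SS3 (v n 0) (v n 1) (v n 2) ∨
      nm (v n) ^ 2 ≤ XX3 (v n 0) (v n 1) (v n 2) ^ 2 := by
    refine Eventually.of_forall fun n => ?_
    by_contra h
    push Not at h
    have h2 : 3 * nm (v n) ^ 2 ≤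
        XX3 (v n 0) (v n 1) (v n 2) ^ 2 + 2 * SS3 (v n 0) (v n 1) (v n 2) := by
      have h3 : nm (v n) = |(v n 0 : ℝ)| ∨ nm (v n) = |(v n 1 : ℝ)| ∨
          nm (v n) = |(v n 2 : ℝ)| := by
        unfold nm
        rcases max_choice |(v n 0 : ℝ)| (max |(v n 1 : ℝ)| |(v n 2 : ℝ)|) with h | h
        · left; exact h
        · rcases max_choice |(v n 1 : ℝ)| |(v n 2 : ℝ)| with h' | h'
          · right; left; rw [h, h']
          · right; right; rw [h, h']
      rcases h3 with h3 | h3 | h3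
      · rw [h3, sq_abs]; exact sq_le_XS _ _ _ _ (Or.inl rfl)
      · rw [h3, sq_abs]; exact sq_le_XS _ _ _ _ (Or.inr (Or.inl rfl))
      · rw [h3, sq_abs]; exact sq_le_XS _ _ _ _ (Or.inr (Or.inr rfl))
    linarith [h.1, h.2]
  rcases Ultrafilter.eventually_or.1 h1 with h2 | h2
  · exact (caseA hv0 hinf hN h2).nf
  · exact nf_of_vs (caseB hv0 hinf hN h2).nf

include hv0 hinf hN in
/-- no form vanishes along a sequence of integral points with small norms -/
theorem no_form {m : ℕ} {f : MvPolynomial (Fin 3) ℚ} (hf : f.IsHomogeneous m)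
    (h0 : ∀ n, aeval (fun i => (v n i : ℚ)) f = 0) : f = 0 := by
  have h1 := nf hv0 hinf hN m (map (algebraMap ℚ KT) f) (hf.map _) (by
    rw [aeval_gv, ← gr_zero]
    congr 1
    funext n
    rw [aeval_map_algebraMap]
    have h2 : (fun i => (v n i : ℝ)) = fun i => algebraMap ℚ ℝ (v n i : ℚ) := by
      funext i
      simp
    rw [h2, ← Function.comp_def, aeval_algebraMap_apply, h0, map_zero])
  exact map_injective _ (algebraMap ℚ KT).injective (h1.trans (map_zero _).symm)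

end seq

end Pool.Agent.Y738.BC
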