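import Mathlib
import Pool.Agent.Y738.BC.Defs
import Pool.Agent.Y738.BC.NoForm

set_option autoImplicit false

/-!
# Heights and distances of rational points in terms of primitive integral coordinates
-/

namespace Pool.Agent.Y738.BC

open MvPolynomial LinearAlgebra.Projectivization

lemma exists_prim {n : ℕ} [NeZero n] (q : ℙ ℚ (Fin n → ℚ)) :
    ∃ (a : Fin n → ℤ) (ha : (fun i => (a i : ℚ)) ≠ 0), Finset.univ.gcd a = 1 ∧
      q = Projectivization.mk ℚ (fun i => (a i : ℚ)) ha := by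
  obtain ⟨d, hd⟩ := IsLocalization.exist_integer_multiples_of_finite (nonZeroDivisors ℤ) q.rep
  choose b hb using hd
  have hd0 : (d : ℤ) ≠ 0 := nonZeroDivisors.ne_zero d.2
  have hb' : ∀ i, (b i : ℚ) = (d : ℤ) * q.rep i := by
    intro i
    have := hb i
    rw [zsmul_eq_mul] at this
    exact this
  obtain ⟨a, ha, hgcd⟩ := Finset.extract_gcd b (Finset.univ_nonempty (α := Fin n))
  have hg0 : Finset.univ.gcd b ≠ 0 := by
    intro h
    rw [Finset.gcd_eq_zero_iff] at h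
    apply q.rep_nonzero
    funext i
    have h1 := hb' i
    rw [h i (Finset.mem_univ i), Int.cast_zero] at h1
    exact (mul_eq_zero.1 h1.symm).resolve_left (by exact_mod_cast hd0)
  have ha0 : (fun i => (a i : ℚ)) ≠ 0 := by
    intro h
    apply q.rep_nonzero
    funext i
    have h1 := hb' i
    have h2 : (a i : ℚ) = 0 := congrFun h i
    rw [ha i (Finset.mem_univ i), Int.cast_mul, h2, mul_zero] at h1
    exact (mul_eq_zero.1 h1.symm).resolve_left (by exact_mod_cast hd0)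
  refine ⟨a, ha0, hgcd, ?_⟩
  conv_lhs => rw [← q.mk_rep]
  rw [Projectivization.mk_eq_mk_iff']
  refine ⟨((Finset.univ.gcd b : ℤ) : ℚ) / ((d : ℤ) : ℚ), ?_⟩
  funext i
  have h1 := hb' i
  rw [ha i (Finset.mem_univ i), Int.cast_mul] at h1
  rw [Pi.smul_apply, smul_eq_mul, div_mul_eq_mul_div, h1]
  field_simp

lemma mulHeight_prim {n : ℕ} [NeZero n] {a : Fin n → ℤ} (h : Finset.univ.gcd a = 1)
    (ha : (fun i => (a i : ℚ)) ≠ 0) :
    (Projectivization.mk ℚ (fun i => (a i : ℚ)) ha).mulHeight = ⨆ i, |(a i : ℝ)| := by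
  rw [Projectivization.mulHeight_mk]
  have h1 := Rat.mulHeight_eq_max_abs_of_gcd_eq_one h
  have h2 : (fun i => (a i : ℚ)) = ((↑) : ℤ → ℚ) ∘ a := rfl
  rw [h2, h1, Finite.map_iSup_of_monotone _ Int.cast_mono]
  push_cast
  rfl

lemma pdist_mk {n : ℕ} [NeZero n] {v w : Fin n → ℚ} (hv : v ≠ 0) (hw : w ≠ 0) :
    pdist (Projectivization.mk ℚ v hv) (Projectivization.mk ℚ w hw) =
      (⨆ i, ⨆ j, |((v i * w j - v j * w i : ℚ) : ℝ)|) /
        ((⨆ i, |(v i : ℝ)|) * ⨆ i, |(w i : ℝ)|) := by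
  obtain ⟨α, hα⟩ := Projectivization.exists_smul_eq_mk_rep ℚ v hv
  obtain ⟨β, hβ⟩ := Projectivization.exists_smul_eq_mk_rep ℚ w hw
  unfold pdist
  rw [← hα, ← hβ]
  have hα0 : |((α : ℚ) : ℝ)| ≠ 0 := by
    rw [abs_ne_zero]; exact_mod_cast α.ne_zero
  have hβ0 : |((β : ℚ) : ℝ)| ≠ 0 := by
    rw [abs_ne_zero]; exact_mod_cast β.ne_zero
  have h1 : (⨆ i, |(((α • v) i : ℚ) : ℝ)|) = |((α : ℚ) : ℝ)| * ⨆ i, |(v i : ℝ)| := by
    rw [Real.mul_iSup_of_nonneg (abs_nonneg _)]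
    congr 1
    funext i
    rw [Pi.smul_apply, Units.smul_def, smul_eq_mul, Rat.cast_mul, abs_mul]
  have h2 : (⨆ i, |(((β • w) i : ℚ) : ℝ)|) = |((β : ℚ) : ℝ)| * ⨆ i, |(w i : ℝ)| := by
    rw [Real.mul_iSup_of_nonneg (abs_nonneg _)]
    congr 1
    funext i
    rw [Pi.smul_apply, Units.smul_def, smul_eq_mul, Rat.cast_mul, abs_mul]
  have h3 : (⨆ i, ⨆ j, |(((α • v) i * (β • w) j - (α • v) j * (β • w) i : ℚ) : ℝ)|) =
      (|((α : ℚ) : ℝ)| * |((β : ℚ) : ℝ)|) * ⨆ i, ⨆ j, |((v i * w j - v j * w i : ℚ) : ℝ)| := by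
    rw [Real.mul_iSup_of_nonneg (by positivity)]
    congr 1
    funext i
    rw [Real.mul_iSup_of_nonneg (by positivity)]
    congr 1
    funext j
    rw [← abs_mul, ← abs_mul]
    congr 1
    rw [Pi.smul_apply, Pi.smul_apply, Pi.smul_apply, Pi.smul_apply, Units.smul_def,
      Units.smul_def, Units.smul_def, Units.smul_def, smul_eq_mul, smul_eq_mul, smul_eq_mul,
      smul_eq_mul]
    push_cast
    ring
  rw [h1, h2, h3]
  rw [mul_mul_mul_comm, mul_div_mul_left _ _ (mul_ne_zero hα0 hβ0)]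

lemma le_iSup1 {n : ℕ} (f : Fin n → ℝ) (i : Fin n) : f i ≤ ⨆ i, f i :=
  le_ciSup (Set.finite_range _).bddAbove i

lemma iSup4 (a : Fin 4 → ℝ) : (⨆ i, a i) = max (max (a 0) (max (a 1) (a 2))) (a 3) := by
  apply le_antisymm
  · apply ciSup_le
    intro i
    fin_cases i
    · exact (le_max_left _ _).trans (le_max_left _ _)
    · exact ((le_max_left _ _).trans (le_max_right _ _)).trans (le_max_left _ _)
    · exact ((le_max_right _ _).trans (le_max_right _ _)).trans (le_max_left _ _)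
    · exact le_max_right _ _
  · exact max_le (max_le (le_iSup1 a 0) (max_le (le_iSup1 a 1) (le_iSup1 a 2))) (le_iSup1 a 3)

lemma iSup2 (a : Fin 2 → ℝ) : (⨆ i, a i) = max (a 0) (a 1) := by
  apply le_antisymm
  · apply ciSup_le
    intro i
    fin_cases i
    · exact le_max_left _ _
    · exact le_max_right _ _
  · exact max_le (le_iSup1 a 0) (le_iSup1 a 1)

lemma pdist_P1 {a : Fin 4 → ℚ} (ha : a ≠ 0) :
    pdist P.1 (Projectivization.mk ℚ a ha) =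
      max |(a 0 : ℝ)| (max |(a 1 : ℝ)| |(a 2 : ℝ)|) / (⨆ i, |(a i : ℝ)|) := by
  unfold P
  rw [pdist_mk]
  have h1 : (⨆ i, |((![0, 0, 0, 1] : Fin 4 → ℚ) i : ℝ)|) = 1 := by
    rw [iSup4]
    simp
  rw [h1, one_mul]
  congr 1
  have h2 : ∀ i, (⨆ j, |(((![0, 0, 0, 1] : Fin 4 → ℚ) i * a j -
      (![0, 0, 0, 1] : Fin 4 → ℚ) j * a i : ℚ) : ℝ)|) =
      (![|(a 0 : ℝ)|, |(a 1 : ℝ)|, |(a 2 : ℝ)|,
        max |(a 0 : ℝ)| (max |(a 1 : ℝ)| |(a 2 : ℝ)|)] : Fin 4 → ℝ) i := by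
    intro i
    rw [iSup4]
    fin_cases i <;> simp
  simp only [h2]
  rw [iSup4]
  simp

lemma pdist_P2 {b : Fin 2 → ℚ} (hb : b ≠ 0) :
    pdist P.2 (Projectivization.mk ℚ b hb) = |(b 0 : ℝ)| / (⨆ i, |(b i : ℝ)|) := by
  unfold P
  rw [pdist_mk]
  have h1 : (⨆ i, |((![0, 1] : Fin 2 → ℚ) i : ℝ)|) = 1 := by
    rw [iSup2]
    simp
  rw [h1, one_mul]
  congr 1
  have h2 : ∀ i, (⨆ j, |(((![0, 1] : Fin 2 → ℚ) i * b j -
      (![0, 1] : Fin 2 → ℚ) j * b i : ℚ) : ℝ)|) = |(b 0 : ℝ)| := by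
    intro i
    rw [iSup2]
    fin_cases i <;> simp
  simp only [h2]
  rw [iSup2]
  simp

end Pool.Agent.Y738.BC
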