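import Mathlib
import Pool.Agent.Y738.BC.Arith

set_option autoImplicit false

/-!
# The rational points of the threefold near the point `P`
-/

namespace Pool.Agent.Y738.BC

open MvPolynomial LinearAlgebra.Projectivization

/-- the quartic form -/
def Az (x y z : ℤ) : ℤ :=
  x ^ 4 + 24 * x ^ 2 * y * z + 8 * x * y ^ 3 + 16 * x * z ^ 3 + 24 * y ^ 2 * z ^ 2

lemma aeval_G (a : Fin 4 → ℚ) (b : Fin 2 → ℚ) : aeval (Sum.elim a b) G =
    b 1 * (a 3 * (a 0 ^ 3 + 2 * a 1 ^ 3 + 4 * a 2 ^ 3 - 6 * a 0 * a 1 * a 2) -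
      (a 0 ^ 4 + 24 * a 0 ^ 2 * a 1 * a 2 + 8 * a 0 * a 1 ^ 3 + 16 * a 0 * a 2 ^ 3 +
        24 * a 1 ^ 2 * a 2 ^ 2)) +
    b 0 * (a 3 ^ 4 + 12 * a 0 ^ 2 * a 1 ^ 2 + 8 * a 0 ^ 3 * a 2 + 48 * a 0 * a 1 * a 2 ^ 2 +
      16 * a 1 ^ 3 * a 2 + 8 * a 2 ^ 4) := by
  unfold G
  simp only [map_add, map_sub, map_mul, map_pow, aeval_X, map_ofNat, Sum.elim_inl, Sum.elim_inr]

lemma mem_span_points {p : Pt} : p ∈ points (Ideal.span {G}) ↔
    ∀ (a : Fin 4 → ℚ) (b : Fin 2 → ℚ) (ha : a ≠ 0) (hb : b ≠ 0),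
      (Projectivization.mk ℚ a ha, Projectivization.mk ℚ b hb) = p →
        aeval (Sum.elim a b) G = 0 := by
  constructor
  · intro h a b ha hb he
    exact h G (Ideal.mem_span_singleton_self G) a b ha hb he
  · intro h F hF a b ha hb he
    obtain ⟨c, rfl⟩ := Ideal.mem_span_singleton.1 hF
    rw [map_mul, h a b ha hb he, zero_mul]

lemma points_mono {I J : Ideal R} (h : I ≤ J) : points J ⊆ points I :=
  fun _ hp F hF => hp F (h hF)

lemma far {p : Pt} (h2 : p.2 ≠ P.2) : 1 ≤ dist P p * p.2.mulHeight := by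
  obtain ⟨b, hb, hg, h⟩ := exists_prim p.2
  have hb0 : b 0 ≠ 0 := by
    intro h0
    apply h2
    rw [h]
    unfold P
    rw [Projectivization.mk_eq_mk_iff']
    refine ⟨(b 1 : ℚ), ?_⟩
    funext i
    fin_cases i
    · simp [h0]
    · simp
  have h3 : (1 : ℝ) ≤ |(b 0 : ℝ)| := by exact_mod_cast Int.one_le_abs hb0
  have h4 : 0 < ⨆ i, |(b i : ℝ)| := by
    rw [iSup2]
    exact lt_of_lt_of_le (by linarith) (le_max_left _ _)
  have h5 : pdist P.2 p.2 ≤ dist P p := le_max_right _ _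
  have h6 : pdist P.2 p.2 * p.2.mulHeight = |(b 0 : ℝ)| := by
    rw [h, pdist_P2, mulHeight_prim hg]
    simp only [Rat.cast_intCast]
    field_simp
  calc (1 : ℝ) ≤ pdist P.2 p.2 * p.2.mulHeight := by rw [h6]; exact h3
    _ ≤ dist P p * p.2.mulHeight := by
      have := (Projectivization.mulHeight_pos p.2).le
      gcongr

lemma P2_height : P.2.mulHeight = 1 := by
  have h1 : P.2 = Projectivization.mk ℚ (fun i => ((![0, 1] : Fin 2 → ℤ) i : ℚ))
      (fun h => one_ne_zero (α := ℚ) (by simpa using congrFun h 1)) := by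
    unfold P
    rw [Projectivization.mk_eq_mk_iff']
    refine ⟨1, ?_⟩
    funext i
    fin_cases i <;> simp
  rw [h1, mulHeight_prim, iSup2]
  · simp
  · apply Int.eq_one_of_dvd_one (Int.nonneg_of_normalize_eq_self Finset.normalize_gcd)
    have := Finset.gcd_dvd (f := (![0, 1] : Fin 2 → ℤ)) (Finset.mem_univ 1)
    simpa using this

lemma pdist_P22 : pdist P.2 P.2 = 0 := by
  conv_lhs => rw [show P.2 = Projectivization.mk ℚ ![0, 1] (fun h => one_ne_zero (congrFun h 1))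
    from rfl]
  change pdist P.2 (Projectivization.mk ℚ ![0, 1] _) = 0
  rw [pdist_P2]
  simp

/-- the rational points of the fibre -/
lemma fibre {p : Pt} (hp : p ∈ points (Ideal.span {G})) (h2 : p.2 = P.2) (hne : p ≠ P) :
    ∃ (v : Fin 3 → ℤ) (W : ℤ), v ≠ 0 ∧
      W * Nz (v 0) (v 1) (v 2) = Az (v 0) (v 1) (v 2) ∧
      p.1.mulHeight = max (nm v) |(W : ℝ)| ∧
      dist P p = nm v / max (nm v) |(W : ℝ)| ∧
      ∀ l μ : ℚ, l ≠ 0 → μ ≠ 0 → ∃ (ha : (![l * v 0, l * v 1, l * v 2, l * W] : Fin 4 → ℚ) ≠ 0)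
        (hb : (![0, μ] : Fin 2 → ℚ) ≠ 0),
          (Projectivization.mk ℚ _ ha, Projectivization.mk ℚ _ hb) = p := by
  obtain ⟨a, ha, hg, h⟩ := exists_prim p.1
  have hv0 : (![a 0, a 1, a 2] : Fin 3 → ℤ) ≠ 0 := by
    intro h0
    apply hne
    have h00 : a 0 = 0 := congrFun h0 0
    have h01 : a 1 = 0 := congrFun h0 1
    have h02 : a 2 = 0 := congrFun h0 2
    refine Prod.ext ?_ h2
    rw [h]
    unfold P
    rw [Projectivization.mk_eq_mk_iff']
    refine ⟨(a 3 : ℚ), ?_⟩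
    funext i
    fin_cases i
    · simp [h00]
    · simp [h01]
    · simp [h02]
    · simp
  have hnm : nm ![a 0, a 1, a 2] = max |(a 0 : ℝ)| (max |(a 1 : ℝ)| |(a 2 : ℝ)|) := rfl
  have hrep : ∀ l μ : ℚ, l ≠ 0 → μ ≠ 0 →
      ∃ (ha : (![l * a 0, l * a 1, l * a 2, l * a 3] : Fin 4 → ℚ) ≠ 0)
        (hb : (![0, μ] : Fin 2 → ℚ) ≠ 0),
          (Projectivization.mk ℚ _ ha, Projectivization.mk ℚ _ hb) = p := by
    intro l μ hl hμ
    have e1 : (![l * a 0, l * a 1, l * a 2, l * a 3] : Fin 4 → ℚ) = l • fun i => (a i : ℚ) := by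
      funext i
      fin_cases i <;> simp
    have e2 : (![0, μ] : Fin 2 → ℚ) = μ • ![0, 1] := by
      funext i
      fin_cases i <;> simp
    have ha' : (![l * a 0, l * a 1, l * a 2, l * a 3] : Fin 4 → ℚ) ≠ 0 := by
      rw [e1]
      exact smul_ne_zero hl ha
    have hb' : (![0, μ] : Fin 2 → ℚ) ≠ 0 := fun h => hμ (congrFun h 1)
    refine ⟨ha', hb', ?_⟩
    refine Prod.ext ?_ ?_
    · change Projectivization.mk ℚ _ ha' = p.1
      rw [h, Projectivization.mk_eq_mk_iff']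
      exact ⟨l, e1.symm⟩
    · change Projectivization.mk ℚ _ hb' = p.2
      rw [h2]
      unfold P
      rw [Projectivization.mk_eq_mk_iff']
      exact ⟨μ, e2.symm⟩
  refine ⟨![a 0, a 1, a 2], a 3, hv0, ?_, ?_, ?_, ?_⟩
  · obtain ⟨ha', hb', he⟩ := hrep 1 1 one_ne_zero one_ne_zero
    have h3 := mem_span_points.1 hp _ _ ha' hb' he
    rw [aeval_G] at h3
    simp at h3
    have h4 : ((a 3 * Nz (a 0) (a 1) (a 2) - Az (a 0) (a 1) (a 2) : ℤ) : ℚ) = 0 := by
      unfold Nz Az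
      push_cast
      linarith
    have h5 : a 3 * Nz (a 0) (a 1) (a 2) - Az (a 0) (a 1) (a 2) = 0 := by exact_mod_cast h4
    change a 3 * Nz (a 0) (a 1) (a 2) = Az (a 0) (a 1) (a 2)
    linarith
  · rw [h, mulHeight_prim hg, iSup4, hnm]
  · unfold dist
    rw [h2, pdist_P22, h, pdist_P1, hnm]
    simp only [Rat.cast_intCast]
    rw [iSup4]
    apply max_eq_left
    positivity
  · exact hrep

end Pool.Agent.Y738.BC
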