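import Mathlib
import Pool.Agent.Y738.BC.Pts
import Pool.Agent.Y738.BC.Krull

set_option autoImplicit false

/-!
# The lower bound for the approximation constant
-/

namespace Pool.Agent.Y738.BC

open MvPolynomial LinearAlgebra.Projectivization Filter Topology

lemma Az_le (v : Fin 3 → ℤ) : |(Az (v 0) (v 1) (v 2) : ℝ)| ≤ 73 * nm v ^ 4 := by
  have h0 := abs_le_nm v 0
  have h1 := abs_le_nm v 1
  have h2 := abs_le_nm v 2
  have hm : 0 ≤ nm v := (abs_nonneg _).trans h0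
  unfold Az
  push_cast
  generalize (v 0 : ℝ) = x at *
  generalize (v 1 : ℝ) = y at *
  generalize (v 2 : ℝ) = z at *
  generalize nm v = m at *
  have e1 : |x ^ 4| ≤ m ^ 4 := by
    rw [abs_pow]; gcongr
  have e2 : |24 * x ^ 2 * y * z| ≤ 24 * m ^ 4 := by
    rw [abs_mul, abs_mul, abs_mul, abs_pow, abs_of_pos (show (0 : ℝ) < 24 by norm_num)]
    calc 24 * |x| ^ 2 * |y| * |z| ≤ 24 * m ^ 2 * m * m := by gcongr
      _ = 24 * m ^ 4 := by ring
  have e3 : |8 * x * y ^ 3| ≤ 8 * m ^ 4 := by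
    rw [abs_mul, abs_mul, abs_pow, abs_of_pos (show (0 : ℝ) < 8 by norm_num)]
    calc 8 * |x| * |y| ^ 3 ≤ 8 * m * m ^ 3 := by gcongr
      _ = 8 * m ^ 4 := by ring
  have e4 : |16 * x * z ^ 3| ≤ 16 * m ^ 4 := by
    rw [abs_mul, abs_mul, abs_pow, abs_of_pos (show (0 : ℝ) < 16 by norm_num)]
    calc 16 * |x| * |z| ^ 3 ≤ 16 * m * m ^ 3 := by gcongr
      _ = 16 * m ^ 4 := by ring
  have e5 : |24 * y ^ 2 * z ^ 2| ≤ 24 * m ^ 4 := by
    rw [abs_mul, abs_mul, abs_pow, abs_pow, abs_of_pos (show (0 : ℝ) < 24 by norm_num)]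
    calc 24 * |y| ^ 2 * |z| ^ 2 ≤ 24 * m ^ 2 * m ^ 2 := by gcongr
      _ = 24 * m ^ 4 := by ring
  rw [abs_le] at *
  constructor <;> linarith [e1.1, e1.2, e2.1, e2.2, e3.1, e3.2, e4.1, e4.2, e5.1, e5.2]

lemma dist_nonneg (p : Pt) : 0 ≤ dist P p := by
  unfold dist
  refine le_trans ?_ (le_max_left _ _)
  unfold pdist
  apply div_nonneg
  · exact Real.iSup_nonneg fun i => Real.iSup_nonneg fun j => abs_nonneg _
  · exact mul_nonneg (Real.iSup_nonneg fun i => abs_nonneg _)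
      (Real.iSup_nonneg fun i => abs_nonneg _)

/-- facts about the points of the fibre which are close to `P` -/
lemma near_fibre {v : Fin 3 → ℤ} {W : ℤ} (hv : v ≠ 0)
    (hW : W * Nz (v 0) (v 1) (v 2) = Az (v 0) (v 1) (v 2))
    (hd : nm v / max (nm v) |(W : ℝ)| < 1) :
    max (nm v) |(W : ℝ)| = |(W : ℝ)| ∧ 1 ≤ nm v ∧ nm v < |(W : ℝ)| ∧
      |(W : ℝ)| * |(Nz (v 0) (v 1) (v 2) : ℝ)| ≤ 73 * nm v ^ 4 ∧ |(W : ℝ)| ≤ 73 * nm v ^ 4 := by
  have h1 := nm_pos hv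
  have h2 : 0 < max (nm v) |(W : ℝ)| := lt_of_lt_of_le (by linarith) (le_max_left _ _)
  rw [div_lt_one h2] at hd
  have h3 : nm v < |(W : ℝ)| := by
    rcases lt_max_iff.1 hd with h | h
    · exact (lt_irrefl _ h).elim
    · exact h
  have h4 : |(W : ℝ)| * |(Nz (v 0) (v 1) (v 2) : ℝ)| ≤ 73 * nm v ^ 4 := by
    refine le_trans (le_of_eq ?_) (Az_le v)
    rw [← hW, ← abs_mul]
    push_cast
    rfl
  refine ⟨max_eq_right h3.le, h1, h3, h4, ?_⟩
  have h5 : (1 : ℝ) ≤ |(Nz (v 0) (v 1) (v 2) : ℝ)| := by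
    exact_mod_cast Int.one_le_abs (Nz_ne hv)
  refine le_trans ?_ h4
  have := abs_nonneg (W : ℝ)
  nlinarith

/-- the inequality of Liouville -/
theorem liouville {a b : ℕ} (hab : 4 * a < 3 * b) {p : Pt}
    (hp : p ∈ points (Ideal.span {G})) (hne : p ≠ P) (hd : dist P p < 1) :
    1 ≤ 73 ^ a * height a b p ^ 3 * dist P p ^ (4 * a) := by
  have hd0 := dist_nonneg p
  have g1 := Projectivization.one_le_mulHeight p.1
  have g2 := Projectivization.one_le_mulHeight p.2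
  by_cases h2 : p.2 = P.2
  · obtain ⟨v, W, hv, hW, hH, hdist, -⟩ := fibre hp h2 hne
    rw [hdist] at hd
    obtain ⟨k1, k2, k3, k4, k5⟩ := near_fibre hv hW hd
    rw [hdist, k1]
    unfold height
    rw [h2, P2_height, one_pow, mul_one, hH, k1]
    have hWpos : 0 < |(W : ℝ)| := by linarith
    have e1 : 73 ^ a * (|(W : ℝ)| ^ a) ^ 3 * (nm v / |(W : ℝ)|) ^ (4 * a) =
        (73 * |(W : ℝ)| ^ 3 * (nm v / |(W : ℝ)|) ^ 4) ^ a := by
      rw [mul_pow, mul_pow, ← pow_mul, ← pow_mul, ← pow_mul, mul_comm a 3]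
    rw [e1]
    apply one_le_pow₀
    have e2 : 73 * |(W : ℝ)| ^ 3 * (nm v / |(W : ℝ)|) ^ 4 = 73 * nm v ^ 4 / |(W : ℝ)| := by
      field_simp
    rw [e2, one_le_div hWpos]
    exact k5
  · have h3 := far h2
    have h4 : 1 ≤ (dist P p * p.2.mulHeight) ^ (3 * b) := one_le_pow₀ h3
    have h5 : dist P p ^ (3 * b) ≤ dist P p ^ (4 * a) :=
      pow_le_pow_of_le_one hd0 hd.le hab.le
    have h6 : (1 : ℝ) ≤ (p.1.mulHeight ^ a) ^ 3 := one_le_pow₀ (one_le_pow₀ g1)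
    have h7 : (1 : ℝ) ≤ 73 ^ a := one_le_pow₀ (by norm_num)
    unfold height
    calc (1 : ℝ) ≤ 1 * (1 * p.2.mulHeight ^ (3 * b)) * dist P p ^ (3 * b) := by
          rw [one_mul, one_mul, ← mul_pow, mul_comm]; exact h4
      _ ≤ 73 ^ a * ((p.1.mulHeight ^ a) ^ 3 * p.2.mulHeight ^ (3 * b)) * dist P p ^ (4 * a) := by
          gcongr
      _ = 73 ^ a * (p.1.mulHeight ^ a * p.2.mulHeight ^ b) ^ 3 * dist P p ^ (4 * a) := by
          rw [mul_pow (p.1.mulHeight ^ a), ← pow_mul p.2.mulHeight, mul_comm b 3]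

lemma height_pos (a b : ℕ) (p : Pt) : 0 < height a b p := by
  unfold height
  have h1 := Projectivization.mulHeight_pos p.1
  have h2 := Projectivization.mulHeight_pos p.2
  positivity

/-- the lower bound -/
theorem lower {a b : ℕ} (ha : 0 < a) (hab : 4 * a < 3 * b) {S : Set Pt}
    (hS : S ⊆ points (Ideal.span {G})) : ((4 * a / 3 : ℝ) : EReal) ≤ approxConst a b S P := by
  unfold approxConst
  apply le_sInf
  rintro _ ⟨p, hinj, hmem, rfl⟩
  unfold seqConst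
  apply le_sInf
  rintro _ ⟨γ, rfl, hd, C, hC⟩
  rw [EReal.coe_le_coe_iff]
  by_contra hlt
  push Not at hlt
  have he : 0 < 4 * (a : ℝ) - 3 * γ := by linarith
  have hC' : ∀ i, height a b (p i) * dist P (p i) ^ γ ≤ C := fun i => hC ⟨i, rfl⟩
  have hCpos : 0 ≤ C := le_trans (mul_nonneg (height_pos a b (p 0)).le
    (Real.rpow_nonneg (dist_nonneg _) _)) (hC' 0)
  -- only finitely many points equal `P`
  have hneP : ∀ᶠ i in atTop, p i ≠ P := by
    by_cases h : ∃ i0, p i0 = P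
    · obtain ⟨i0, hi0⟩ := h
      filter_upwards [eventually_gt_atTop i0] with i hi hiP
      have := hinj (hiP.trans hi0.symm)
      omega
    · push Not at h
      exact Eventually.of_forall h
  have hd1 : ∀ᶠ i in atTop, dist P (p i) < 1 := hd.eventually_lt_const one_pos
  have hlim : Tendsto (fun i => 73 ^ a * C ^ 3 * dist P (p i) ^ (4 * (a : ℝ) - 3 * γ)) atTop
      (𝓝 (73 ^ a * C ^ 3 * (0 : ℝ) ^ (4 * (a : ℝ) - 3 * γ))) := by
    apply Tendsto.const_mul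
    exact hd.rpow_const (Or.inr he.le)
  rw [Real.zero_rpow he.ne', mul_zero] at hlim
  have hlt1 := hlim.eventually_lt_const one_pos
  obtain ⟨i, hi1, hi2, hi3⟩ := (hneP.and (hd1.and hlt1)).exists
  have hL := liouville hab (hS (hmem i)) hi1 hi2
  have hdpos : 0 < dist P (p i) := by
    rcases (dist_nonneg (p i)).lt_or_eq with h | h
    · exact h
    · exfalso
      rw [← h, zero_pow (by omega), mul_zero] at hL
      linarith
  have e1 : height a b (p i) ^ 3 * dist P (p i) ^ (4 * a) =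
      (height a b (p i) * dist P (p i) ^ γ) ^ 3 * dist P (p i) ^ (4 * (a : ℝ) - 3 * γ) := by
    have e0 : ((4 * a : ℕ) : ℝ) = γ * ((3 : ℕ) : ℝ) + (4 * (a : ℝ) - 3 * γ) := by
      push_cast
      ring
    rw [mul_pow, ← Real.rpow_natCast (dist P (p i) ^ γ), ← Real.rpow_mul hdpos.le, mul_assoc,
      ← Real.rpow_add hdpos, ← Real.rpow_natCast (dist P (p i)) (4 * a), e0]
  rw [mul_assoc, e1, ← mul_assoc] at hL
  have h5 : (height a b (p i) * dist P (p i) ^ γ) ^ 3 ≤ C ^ 3 := by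
    have := hC' i
    have h0 : 0 ≤ height a b (p i) * dist P (p i) ^ γ :=
      mul_nonneg (height_pos a b (p i)).le (Real.rpow_nonneg (dist_nonneg _) _)
    gcongr
  have h6 : 73 ^ a * (height a b (p i) * dist P (p i) ^ γ) ^ 3 *
      dist P (p i) ^ (4 * (a : ℝ) - 3 * γ) ≤
      73 ^ a * C ^ 3 * dist P (p i) ^ (4 * (a : ℝ) - 3 * γ) := by
    have := Real.rpow_nonneg hdpos.le (4 * (a : ℝ) - 3 * γ)
    gcongr
  linarith

end Pool.Agent.Y738.BC
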