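import Mathlib
import Pool.Agent.Y738.BC.Lower

set_option autoImplicit false

/-!
# No curve attains the approximation constant
-/

namespace Pool.Agent.Y738.BC

open MvPolynomial LinearAlgebra.Projectivization Filter Topology

/-- good points -/
lemma exists_good {a b : ℕ} {S : Set Pt} (hα : approxConst a b S P ≤ ((4 * a / 3 : ℝ) : EReal))
    {ε : ℝ} (hε : 0 < ε) : ∃ p ∈ S, p ≠ P ∧ dist P p < ε ∧
      height a b p * dist P p ^ (4 * (a : ℝ) / 3 + ε) ≤ 1 := by
  have h1 : approxConst a b S P < ((4 * a / 3 + ε / 2 : ℝ) : EReal) := by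
    refine hα.trans_lt ?_
    rw [EReal.coe_lt_coe_iff]
    linarith
  unfold approxConst at h1
  obtain ⟨_, ⟨p, hinj, hmem, rfl⟩, h2⟩ := sInf_lt_iff.1 h1
  unfold seqConst at h2
  obtain ⟨_, ⟨γ, rfl, hd, C, hC⟩, h3⟩ := sInf_lt_iff.1 h2
  rw [EReal.coe_lt_coe_iff] at h3
  have hC' : ∀ i, height a b (p i) * dist P (p i) ^ γ ≤ C := fun i => hC ⟨i, rfl⟩
  obtain ⟨e, he⟩ : ∃ e, e = 4 * (a : ℝ) / 3 + ε - γ := ⟨_, rfl⟩
  have he0 : 0 < e := by rw [he]; linarith
  have hneP : ∀ᶠ i in atTop, p i ≠ P := by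
    by_cases h : ∃ i0, p i0 = P
    · obtain ⟨i0, hi0⟩ := h
      filter_upwards [eventually_gt_atTop i0] with i hi hiP
      have := hinj (hiP.trans hi0.symm)
      omega
    · push Not at h
      exact Eventually.of_forall h
  have hlim : Tendsto (fun i => C * dist P (p i) ^ e) atTop (𝓝 (C * (0 : ℝ) ^ e)) := by
    apply Tendsto.const_mul
    exact hd.rpow_const (Or.inr he0.le)
  rw [Real.zero_rpow he0.ne', mul_zero] at hlim
  obtain ⟨i, hi1, hi2, hi3⟩ := (hneP.and ((hd.eventually_lt_const hε).and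
    (hlim.eventually_lt_const one_pos))).exists
  refine ⟨p i, hmem i, hi1, hi2, ?_⟩
  rcases (dist_nonneg (p i)).lt_or_eq with hpos | hzero
  · have e1 : dist P (p i) ^ (4 * (a : ℝ) / 3 + ε) = dist P (p i) ^ γ * dist P (p i) ^ e := by
      rw [← Real.rpow_add hpos, he]
      congr 1
      ring
    rw [e1, ← mul_assoc]
    refine le_trans ?_ hi3.le
    have := Real.rpow_nonneg hpos.le e
    have := hC' i
    gcongr
  · rw [← hzero, Real.zero_rpow (by positivity), mul_zero]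
    norm_num

/-- the integral points which belong to good points -/
lemma good_data {a b : ℕ} (ha : 0 < a) (hab : 4 * a < 3 * b) {ε : ℝ} (hε : 0 < ε) (hε1 : ε ≤ 1)
    (hεb : ε < b - 4 * (a : ℝ) / 3) {p : Pt} (hp : p ∈ points (Ideal.span {G})) (hne : p ≠ P)
    (hd : dist P p < ε) (hH : height a b p * dist P p ^ (4 * (a : ℝ) / 3 + ε) ≤ 1) :
    ∃ (v : Fin 3 → ℤ) (W : ℤ), v ≠ 0 ∧ 1 / ε ≤ 73 * nm v ^ 4 ∧
      |(Nz (v 0) (v 1) (v 2) : ℝ)| ≤ 73 * Real.exp (9 * ε * Real.log (nm v)) ∧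
      ∀ l μ : ℚ, l ≠ 0 → μ ≠ 0 → ∃ (ha : (![l * v 0, l * v 1, l * v 2, l * W] : Fin 4 → ℚ) ≠ 0)
        (hb : (![0, μ] : Fin 2 → ℚ) ≠ 0),
          (Projectivization.mk ℚ _ ha, Projectivization.mk ℚ _ hb) = p := by
  have hd1 : dist P p < 1 := lt_of_lt_of_le hd hε1
  have hL := liouville hab hp hne hd1
  have hdpos : 0 < dist P p := by
    rcases (dist_nonneg p).lt_or_eq with h | h
    · exact h
    · exfalso
      rw [← h, zero_pow (by omega), mul_zero] at hL
      linarith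
  have g1 := Projectivization.one_le_mulHeight p.1
  have h2 : p.2 = P.2 := by
    by_contra h2
    have h3 := far h2
    have h4 : 1 ≤ (dist P p * p.2.mulHeight) ^ b := one_le_pow₀ h3
    have h5 : dist P p ^ (b : ℝ) < dist P p ^ (4 * (a : ℝ) / 3 + ε) :=
      Real.rpow_lt_rpow_of_exponent_gt hdpos hd1 (by linarith)
    have h6 : (1 : ℝ) ≤ p.1.mulHeight ^ a := one_le_pow₀ g1
    have g2 := Projectivization.mulHeight_pos p.2
    unfold height at hH
    have h7 : p.2.mulHeight ^ b * dist P p ^ (b : ℝ) <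
        p.1.mulHeight ^ a * p.2.mulHeight ^ b * dist P p ^ (4 * (a : ℝ) / 3 + ε) := by
      have h8 : 0 < p.2.mulHeight ^ b := by positivity
      have h9 : 0 < dist P p ^ (4 * (a : ℝ) / 3 + ε) := Real.rpow_pos_of_pos hdpos _
      calc p.2.mulHeight ^ b * dist P p ^ (b : ℝ) <
          p.2.mulHeight ^ b * dist P p ^ (4 * (a : ℝ) / 3 + ε) := by gcongr
        _ = 1 * p.2.mulHeight ^ b * dist P p ^ (4 * (a : ℝ) / 3 + ε) := by rw [one_mul]
        _ ≤ _ := by gcongr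
    rw [Real.rpow_natCast, ← mul_pow, mul_comm (p.2.mulHeight)] at h7
    linarith
  obtain ⟨v, W, hv, hW, hh, hdist, hrep⟩ := fibre hp h2 hne
  have hdd := hd1
  rw [hdist] at hdd
  obtain ⟨k1, k2, k3, k4, k5⟩ := near_fibre hv hW hdd
  have hWpos : 0 < |(W : ℝ)| := by linarith
  have hnpos : 0 < nm v := by linarith
  rw [k1] at hdist hh
  refine ⟨v, W, hv, ?_, ?_, hrep⟩
  · have e1 : 1 / ε ≤ |(W : ℝ)| := by
      rw [hdist, div_lt_iff₀ hWpos] at hd
      rw [div_le_iff₀ hε]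
      linarith [mul_comm ε |(W : ℝ)|]
    exact e1.trans k5
  · obtain ⟨l, hl⟩ : ∃ l, l = Real.log (nm v) := ⟨_, rfl⟩
    obtain ⟨w, hw⟩ : ∃ w, w = Real.log |(W : ℝ)| := ⟨_, rfl⟩
    have hl0 : 0 ≤ l := by rw [hl]; exact Real.log_nonneg k2
    have hlw : l < w := by rw [hl, hw]; exact Real.log_lt_log hnpos k3
    have hineq : a * w + (l - w) * (4 * (a : ℝ) / 3 + ε) ≤ 0 := by
      unfold height at hH
      rw [h2, P2_height, one_pow, mul_one, hh, hdist, ← Real.rpow_natCast,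
        Real.rpow_def_of_pos hWpos, Real.rpow_def_of_pos (div_pos hnpos hWpos), ← Real.exp_add,
        Real.exp_le_one_iff, Real.log_div hnpos.ne' hWpos.ne', ← hl, ← hw] at hH
      linarith
    have ha1 : (1 : ℝ) ≤ a := by exact_mod_cast ha
    -- `4 l - w ≤ 9 ε l`
    have hkey : 4 * l - w ≤ 9 * ε * l := by
      have e1 : (4 * (a : ℝ) + 3 * ε) * l ≤ (a + 3 * ε) * w := by linarith
      have e2 : (a + 3 * ε) * (4 * l - w) ≤ 9 * ε * l := by linarith
      have e3 : 0 ≤ 9 * ε * l := by positivity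
      by_contra hcon
      push Not at hcon
      have e4 : 9 * ε * l < (a + 3 * ε) * (4 * l - w) := by
        have e5 : 0 < 4 * l - w := lt_of_le_of_lt e3 hcon
        calc 9 * ε * l < 4 * l - w := hcon
          _ = 1 * (4 * l - w) := (one_mul _).symm
          _ ≤ (a + 3 * ε) * (4 * l - w) := by
            gcongr
            linarith
      linarith
    have e6 : |(Nz (v 0) (v 1) (v 2) : ℝ)| ≤ 73 * nm v ^ 4 / |(W : ℝ)| := by
      rw [le_div_iff₀ hWpos, mul_comm]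
      exact k4
    refine e6.trans ?_
    have e7 : nm v ^ 4 / |(W : ℝ)| = Real.exp (4 * l - w) := by
      rw [Real.exp_sub, hw, Real.exp_log hWpos, hl]
      congr 1
      rw [mul_comm, Real.exp_mul, Real.exp_log hnpos]
      norm_cast
    rw [mul_div_assoc, e7, ← hl]
    gcongr

/-- no closed subscheme of dimension at most one attains the approximation constant -/
theorem strict {a b : ℕ} (ha : 0 < a) (hab : 4 * a < 3 * b) {𝔭 : Ideal R}
    (hG : G ∈ 𝔭) (hdim : ringKrullDim (R ⧸ 𝔭) ≤ 3) :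
    ((4 * a / 3 : ℝ) : EReal) < approxConst a b (points 𝔭) P := by
  by_contra hcon
  push Not at hcon
  have hsub : points 𝔭 ⊆ points (Ideal.span {G}) :=
    points_mono ((Ideal.span_singleton_le_iff_mem _).2 hG)
  have hb0 : (0 : ℝ) < b - 4 * (a : ℝ) / 3 := by
    have : (4 * a : ℝ) < 3 * b := by exact_mod_cast hab
    linarith
  obtain ⟨e0, he0⟩ : ∃ e0, e0 = min 1 (((b : ℝ) - 4 * (a : ℝ) / 3) / 2) := ⟨_, rfl⟩
  have he0p : 0 < e0 := by rw [he0]; positivity
  have he01 : e0 ≤ 1 := by rw [he0]; exact min_le_left _ _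
  have he02 : e0 < b - 4 * (a : ℝ) / 3 := by
    have := min_le_right 1 (((b : ℝ) - 4 * (a : ℝ) / 3) / 2)
    rw [← he0] at this
    linarith
  have hek : ∀ k : ℕ, 0 < e0 / ((k : ℝ) + 1) ∧ e0 / ((k : ℝ) + 1) ≤ e0 := by
    intro k
    have : (0 : ℝ) ≤ k := Nat.cast_nonneg k
    refine ⟨by positivity, ?_⟩
    rw [div_le_iff₀ (by positivity)]
    nlinarith
  have hex : ∀ k : ℕ, ∃ (v : Fin 3 → ℤ) (W : ℤ), v ≠ 0 ∧
      1 / (e0 / ((k : ℝ) + 1)) ≤ 73 * nm v ^ 4 ∧
      |(Nz (v 0) (v 1) (v 2) : ℝ)| ≤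
        73 * Real.exp (9 * (e0 / ((k : ℝ) + 1)) * Real.log (nm v)) ∧
      ∀ l μ : ℚ, l ≠ 0 → μ ≠ 0 → ∀ F ∈ 𝔭,
        aeval (Sum.elim ![l * (v 0 : ℚ), l * v 1, l * v 2, l * W] ![0, μ]) F = 0 := by
    intro k
    obtain ⟨p, hpS, hne, hd, hH⟩ := exists_good hcon (hek k).1
    obtain ⟨v, W, h1, h2, h3, h4⟩ := good_data ha hab (hek k).1 ((hek k).2.trans he01)
      (lt_of_le_of_lt (hek k).2 he02) (hsub hpS) hne hd hH
    refine ⟨v, W, h1, h2, h3, ?_⟩
    intro l μ hl hμ F hF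
    obtain ⟨ha', hb', he⟩ := h4 l μ hl hμ
    exact hpS F hF _ _ ha' hb' he
  choose v W h1 h2 h3 h4 using hex
  obtain ⟨m, f, hf, hf0, hfv⟩ := exists_form 𝔭 hdim
  apply hf0
  have hnm1 : ∀ k, 1 ≤ nm (v k) := fun k => nm_pos (h1 k)
  have hnmtop : Tendsto (fun k => nm (v k)) atTop atTop := by
    have t1 : Tendsto (fun k : ℕ => (k : ℝ)) atTop atTop := tendsto_natCast_atTop_atTop
    rw [tendsto_atTop]
    intro r
    filter_upwards [t1.eventually_ge_atTop (73 * |r| ^ 4)] with k hk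
    by_contra hlt
    push Not at hlt
    have e1 := h2 k
    have e2 : (k : ℝ) + 1 ≤ 1 / (e0 / ((k : ℝ) + 1)) := by
      rw [one_div_div, le_div_iff₀ he0p]
      have : (0 : ℝ) ≤ k := Nat.cast_nonneg k
      nlinarith
    have e3 : nm (v k) ^ 4 ≤ |r| ^ 4 := by
      have := hnm1 k
      have hr : nm (v k) ≤ |r| := hlt.le.trans (le_abs_self r)
      gcongr
    linarith
  refine no_form h1 hnmtop ?_ hf (fun k => ?_)
  · intro ε hε
    have hlog : Tendsto (fun k => Real.log (nm (v k))) atTop atTop :=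
      Real.tendsto_log_atTop.comp hnmtop
    have t1 : Tendsto (fun k : ℕ => (k : ℝ)) atTop atTop := tendsto_natCast_atTop_atTop
    filter_upwards [hlog.eventually_ge_atTop (2 * Real.log 73 / ε),
      t1.eventually_ge_atTop (18 / ε)] with k hk1 hk2
    refine (h3 k).trans ?_
    have hl0 := Real.log_nonneg (hnm1 k)
    obtain ⟨l, hl⟩ : ∃ l, l = Real.log (nm (v k)) := ⟨_, rfl⟩
    rw [← hl] at hk1 hl0 ⊢
    rw [div_le_iff₀ hε] at hk1 hk2
    have e73 : (73 : ℝ) = Real.exp (Real.log 73) := (Real.exp_log (by norm_num)).symm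
    conv_lhs => rw [e73]
    rw [← Real.exp_add]
    apply Real.exp_le_exp.2
    have e5 : 9 * (e0 / ((k : ℝ) + 1)) ≤ ε / 2 := by
      have hk0 : (0 : ℝ) ≤ k := Nat.cast_nonneg k
      rw [mul_div_assoc', div_le_div_iff₀ (by positivity) (by norm_num)]
      nlinarith
    have e6 : 9 * (e0 / ((k : ℝ) + 1)) * l ≤ ε / 2 * l := by gcongr
    linarith
  · exact hfv (fun i => (v k i : ℚ)) (W k) (h4 k)

end Pool.Agent.Y738.BC
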