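import Mathlib
import Pool.Agent.Y738.BC.Defs

set_option autoImplicit false

/-!
# Irreducibility of the threefold over the complex numbers
-/

namespace Pool.Agent.Y738.BC.Irr

open MvPolynomial

/-- the coordinate ring over the complex numbers -/
abbrev RC : Type := MvPolynomial (Fin 4 ⊕ Fin 2) ℂ

/-- the coordinates of `ℙ³` -/
noncomputable abbrev x (i : Fin 4) : RC := X (Sum.inl i)

/-- the coordinates of `ℙ¹` -/
noncomputable abbrev t (i : Fin 2) : RC := X (Sum.inr i)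

/-- the norm form -/
noncomputable def NN : RC := x 0 ^ 3 + 2 * x 1 ^ 3 + 4 * x 2 ^ 3 - 6 * x 0 * x 1 * x 2

/-- the first quartic form -/
noncomputable def AA : RC := x 0 ^ 4 + 24 * x 0 ^ 2 * x 1 * x 2 + 8 * x 0 * x 1 ^ 3 +
  16 * x 0 * x 2 ^ 3 + 24 * x 1 ^ 2 * x 2 ^ 2

/-- the second quartic form -/
noncomputable def BB : RC := 12 * x 0 ^ 2 * x 1 ^ 2 + 8 * x 0 ^ 3 * x 2 +
  48 * x 0 * x 1 * x 2 ^ 2 + 16 * x 1 ^ 3 * x 2 + 8 * x 2 ^ 4

lemma not_mem_vars {i : Fin 4 ⊕ Fin 2} {p : RC}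
    (h : p ∈ supported ℂ ({i}ᶜ : Set (Fin 4 ⊕ Fin 2))) : i ∉ p.vars := by
  rw [mem_supported] at h
  intro hi
  exact h hi rfl

lemma X_mem {i j : Fin 4 ⊕ Fin 2} (h : j ≠ i) :
    (X j : RC) ∈ supported ℂ ({i}ᶜ : Set (Fin 4 ⊕ Fin 2)) := X_mem_supported.2 h

/-- a linear form -/
noncomputable def ll (p : ℂ) : RC := 1 * X (Sum.inl 0) + (C p * x 1 + C (p ^ 2) * x 2)

lemma ll_irr (p : ℂ) : Irreducible (ll p) := by
  refine irreducible_mul_X_add _ _ _ one_ne_zero ?_ ?_ isRelPrime_one_left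
  · simp
  · apply not_mem_vars
    refine add_mem (mul_mem ?_ (X_mem (by decide))) (mul_mem ?_ (X_mem (by decide)))
    · exact Subalgebra.algebraMap_mem _ _
    · exact Subalgebra.algebraMap_mem _ _

lemma ll_rel {p : ℂ} (hp : p ^ 3 = 2) : IsRelPrime (ll p) (-AA) := by
  rw [(ll_irr p).isRelPrime_iff_not_dvd]
  rintro ⟨q, hq⟩
  have h := congrArg (aeval (Sum.elim ![p, -1, 0, 0] ![0, 0] : Fin 4 ⊕ Fin 2 → ℂ)) hq
  simp [AA, ll] at h
  have hp0 : p ≠ 0 := by rintro rfl; norm_num at hp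
  apply hp0
  linear_combination h / 6 + p / 6 * hp

lemma exists_roots : ∃ p q r : ℂ, p ^ 3 = 2 ∧ q ^ 3 = 2 ∧ r ^ 3 = 2 ∧ p + q + r = 0 ∧
    p * q + q * r + r * p = 0 ∧ p * q * r = 2 := by
  obtain ⟨θ, hθ⟩ : ∃ θ : ℂ, θ ^ 3 = 2 := IsAlgClosed.exists_pow_nat_eq 2 (by norm_num)
  obtain ⟨w, hw⟩ : ∃ w : ℂ, w ^ 2 + w + 1 = 0 := by
    obtain ⟨s, hs⟩ : ∃ s : ℂ, s ^ 2 = -3 := IsAlgClosed.exists_pow_nat_eq (-3) (by norm_num)
    exact ⟨(s - 1) / 2, by linear_combination hs / 4⟩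
  have hw3 : w ^ 3 = 1 := by linear_combination (w - 1) * hw
  have hw6 : w ^ 6 = 1 := by linear_combination (w ^ 3 + 1) * hw3
  refine ⟨θ, θ * w, θ * w ^ 2, hθ, ?_, ?_, ?_, ?_, ?_⟩
  · linear_combination w ^ 3 * hθ + 2 * hw3
  · linear_combination w ^ 6 * hθ + 2 * hw6
  · linear_combination θ * hw
  · linear_combination θ ^ 2 * w * hw
  · linear_combination w ^ 3 * hθ + 2 * hw3

lemma NN_eq {p q r : ℂ} (h1 : p + q + r = 0) (h2 : p * q + q * r + r * p = 0) (h3 : p * q * r = 2) :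
    NN = ll p * ll q * ll r := by
  have c1 : (C p + C q + C r : RC) = 0 := by rw [← C_add, ← C_add, h1, C_0]
  have c2 : (C p * C q + C q * C r + C r * C p : RC) = 0 := by
    rw [← C_mul, ← C_mul, ← C_mul, ← C_add, ← C_add, h2, C_0]
  have c3 : (C p * C q * C r : RC) = 2 := by
    rw [← C_mul, ← C_mul, h3]; exact map_ofNat C 2
  unfold NN ll
  rw [C_pow, C_pow, C_pow]
  generalize (C p : RC) = P at *
  generalize (C q : RC) = Q at *
  generalize (C r : RC) = S at *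
  linear_combination (-(x 0 ^ 2 * x 1) - (P + Q + S) * x 0 ^ 2 * x 2 -
      (P * Q + Q * S + S * P) * x 0 * x 1 * x 2 + 2 * (P * Q * S) * x 0 * x 2 ^ 2 -
      (P * Q * S) * x 1 ^ 2 * x 2) * c1 +
    (2 * x 0 ^ 2 * x 2 - x 0 * x 1 ^ 2 - (P * Q + Q * S + S * P) * x 0 * x 2 ^ 2 -
      (P * Q * S) * x 1 * x 2 ^ 2) * c2 +
    (3 * x 0 * x 1 * x 2 - x 1 ^ 3 - (P * Q * S + 2) * x 2 ^ 3) * c3

lemma rel_NA : IsRelPrime NN (-AA) := by
  obtain ⟨p, q, r, hp, hq, hr, h1, h2, h3⟩ := exists_roots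
  rw [NN_eq h1 h2 h3]
  exact ((ll_rel hp).mul_left (ll_rel hq)).mul_left (ll_rel hr)

lemma NN_ne : NN ≠ 0 := by
  intro h
  have h1 := congrArg (aeval (Sum.elim ![1, 0, 0, 0] ![0, 0] : Fin 4 ⊕ Fin 2 → ℂ)) h
  simp [NN] at h1

lemma NN_mem (i : Fin 4 ⊕ Fin 2) (h0 : Sum.inl 0 ≠ i) (h1 : Sum.inl 1 ≠ i)
    (h2 : Sum.inl 2 ≠ i) : NN ∈ supported ℂ ({i}ᶜ : Set (Fin 4 ⊕ Fin 2)) := by
  unfold NN
  repeat' first
    | exact ofNat_mem _ _
    | exact X_mem h0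
    | exact X_mem h1
    | exact X_mem h2
    | refine pow_mem ?_ _
    | apply sub_mem
    | apply add_mem
    | apply mul_mem

lemma AA_mem (i : Fin 4 ⊕ Fin 2) (h0 : Sum.inl 0 ≠ i) (h1 : Sum.inl 1 ≠ i)
    (h2 : Sum.inl 2 ≠ i) : AA ∈ supported ℂ ({i}ᶜ : Set (Fin 4 ⊕ Fin 2)) := by
  unfold AA
  repeat' first
    | exact ofNat_mem _ _
    | exact X_mem h0
    | exact X_mem h1
    | exact X_mem h2
    | refine pow_mem ?_ _
    | apply sub_mem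
    | apply add_mem
    | apply mul_mem

lemma BB_mem (i : Fin 4 ⊕ Fin 2) (h0 : Sum.inl 0 ≠ i) (h1 : Sum.inl 1 ≠ i)
    (h2 : Sum.inl 2 ≠ i) : BB ∈ supported ℂ ({i}ᶜ : Set (Fin 4 ⊕ Fin 2)) := by
  unfold BB
  repeat' first
    | exact ofNat_mem _ _
    | exact X_mem h0
    | exact X_mem h1
    | exact X_mem h2
    | refine pow_mem ?_ _
    | apply sub_mem
    | apply add_mem
    | apply mul_mem

lemma Q1_irr : Irreducible (NN * X (Sum.inl 3) + (-AA) : RC) := by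
  refine irreducible_mul_X_add _ _ _ NN_ne ?_ ?_ rel_NA
  · exact not_mem_vars (NN_mem _ (by decide) (by decide) (by decide))
  · exact not_mem_vars (neg_mem (AA_mem _ (by decide) (by decide) (by decide)))

lemma rel_Q : IsRelPrime (NN * X (Sum.inl 3) + (-AA) : RC) (t 0 * (x 3 ^ 4 + BB)) := by
  rw [Q1_irr.isRelPrime_iff_not_dvd]
  rintro ⟨q, hq⟩
  have h := congrArg (aeval (Sum.elim ![1, 0, 0, 1] ![1, 0] : Fin 4 ⊕ Fin 2 → ℂ)) hq
  simp [NN, AA, BB] at h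

/-- the threefold is irreducible over the complex numbers -/
theorem irreducible : Irreducible (MvPolynomial.map (algebraMap ℚ ℂ) G) := by
  have h : MvPolynomial.map (algebraMap ℚ ℂ) G =
      (NN * X (Sum.inl 3) + (-AA)) * X (Sum.inr 1) + t 0 * (x 3 ^ 4 + BB) := by
    unfold G NN AA BB
    simp only [map_add, map_sub, map_mul, map_pow, map_X, map_ofNat]
    ring
  rw [h]
  refine irreducible_mul_X_add _ _ _ Q1_irr.ne_zero ?_ ?_ rel_Q
  · refine not_mem_vars (add_mem (mul_mem (NN_mem _ ?_ ?_ ?_) (X_mem ?_)) (neg_mem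
      (AA_mem _ ?_ ?_ ?_))) <;> decide
  · refine not_mem_vars (mul_mem (X_mem ?_) (add_mem (pow_mem (X_mem ?_) _)
      (BB_mem _ ?_ ?_ ?_))) <;> decide

end Pool.Agent.Y738.BC.Irr
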