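import Mathlib
import Pool.Agent.Y738.BC.Defs

set_option autoImplicit false

/-!
# Smoothness of the threefold
-/

namespace Pool.Agent.Y738.BC

open MvPolynomial

/-- the core of the Jacobian criterion, in the coordinates which split the norm form -/
lemma core {p0 p1 p2 X0 X1 X2 W t u : ℂ} (s1 : p0 + p1 + p2 = 0)
    (s2 : p0 * p1 + p1 * p2 + p2 * p0 = 0) (s3 : p0 * p1 * p2 = 2)
    (h01 : p0 ≠ p1) (h12 : p1 ≠ p2) (h20 : p2 ≠ p0)
    (e0 : 3 * u * W * (X1 * X2) + 4 * (p0 * t - u) * X0 ^ 3 = 0)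
    (e1 : 3 * u * W * (X2 * X0) + 4 * (p1 * t - u) * X1 ^ 3 = 0)
    (e2 : 3 * u * W * (X0 * X1) + 4 * (p2 * t - u) * X2 ^ 3 = 0)
    (e3 : u * (X0 * X1 * X2) + 4 * t * W ^ 3 = 0)
    (et : 3 * W ^ 4 + (p0 * X0 ^ 4 + p1 * X1 ^ 4 + p2 * X2 ^ 4) = 0)
    (eu : 3 * W * (X0 * X1 * X2) - (X0 ^ 4 + X1 ^ 4 + X2 ^ 4) = 0)
    (htu : ¬ (t = 0 ∧ u = 0)) : X0 = 0 ∧ X1 = 0 ∧ X2 = 0 ∧ W = 0 := by
  have hp0 : p0 ≠ 0 := by rintro rfl; norm_num at s3
  have hp1 : p1 ≠ 0 := by rintro rfl; norm_num at s3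
  have hp2 : p2 ≠ 0 := by rintro rfl; norm_num at s3
  obtain ⟨q, hq⟩ : ∃ q, q = W * (X0 * X1 * X2) := ⟨_, rfl⟩
  have f0 : 3 * u * q + 4 * (p0 * t - u) * X0 ^ 4 = 0 := by
    rw [hq]; linear_combination X0 * e0
  have f1 : 3 * u * q + 4 * (p1 * t - u) * X1 ^ 4 = 0 := by
    rw [hq]; linear_combination X1 * e1
  have f2 : 3 * u * q + 4 * (p2 * t - u) * X2 ^ 4 = 0 := by
    rw [hq]; linear_combination X2 * e2
  have f3 : u * q + 4 * t * W ^ 4 = 0 := by
    rw [hq]; linear_combination W * e3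
  by_cases huq : u * q = 0
  · by_cases hu : u = 0
    · subst hu
      have ht : t ≠ 0 := fun h => htu ⟨h, rfl⟩
      have g0 : X0 = 0 := by
        have : p0 * t * X0 ^ 4 = 0 := by linear_combination f0 / 4
        have h := (mul_eq_zero.1 this).resolve_left (mul_ne_zero hp0 ht)
        exact pow_eq_zero_iff (by norm_num) |>.1 h
      have g1 : X1 = 0 := by
        have : p1 * t * X1 ^ 4 = 0 := by linear_combination f1 / 4
        have h := (mul_eq_zero.1 this).resolve_left (mul_ne_zero hp1 ht)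
        exact pow_eq_zero_iff (by norm_num) |>.1 h
      have g2 : X2 = 0 := by
        have : p2 * t * X2 ^ 4 = 0 := by linear_combination f2 / 4
        have h := (mul_eq_zero.1 this).resolve_left (mul_ne_zero hp2 ht)
        exact pow_eq_zero_iff (by norm_num) |>.1 h
      have g3 : W = 0 := by
        have : t * W ^ 4 = 0 := by linear_combination f3 / 4
        have h := (mul_eq_zero.1 this).resolve_left ht
        exact pow_eq_zero_iff (by norm_num) |>.1 h
      exact ⟨g0, g1, g2, g3⟩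
    · have hq0 : q = 0 := (mul_eq_zero.1 huq).resolve_left hu
      by_cases hW : W = 0
      · subst hW
        have c0 : X0 = 0 ∨ p0 * t = u := by
          have : (p0 * t - u) * X0 ^ 4 = 0 := by
            rw [hq0] at f0; linear_combination f0 / 4
          rcases mul_eq_zero.1 this with h | h
          · exact Or.inr (sub_eq_zero.1 h)
          · exact Or.inl (pow_eq_zero_iff (by norm_num) |>.1 h)
        have c1 : X1 = 0 ∨ p1 * t = u := by
          have : (p1 * t - u) * X1 ^ 4 = 0 := by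
            rw [hq0] at f1; linear_combination f1 / 4
          rcases mul_eq_zero.1 this with h | h
          · exact Or.inr (sub_eq_zero.1 h)
          · exact Or.inl (pow_eq_zero_iff (by norm_num) |>.1 h)
        have c2 : X2 = 0 ∨ p2 * t = u := by
          have : (p2 * t - u) * X2 ^ 4 = 0 := by
            rw [hq0] at f2; linear_combination f2 / 4
          rcases mul_eq_zero.1 this with h | h
          · exact Or.inr (sub_eq_zero.1 h)
          · exact Or.inl (pow_eq_zero_iff (by norm_num) |>.1 h)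
        have key : ∀ {a b : ℂ}, a ≠ b → a * t = u → b * t = u → False := by
          intro a b hab h1 h2
          have h3 : (a - b) * t = 0 := by linear_combination h1 - h2
          have h4 : t = 0 := (mul_eq_zero.1 h3).resolve_left (sub_ne_zero.2 hab)
          apply hu
          rw [← h1, h4, mul_zero]
        have eu' : X0 ^ 4 + X1 ^ 4 + X2 ^ 4 = 0 := by linear_combination -eu
        have z4 : ∀ {a : ℂ}, a ^ 4 = 0 → a = 0 := fun h => pow_eq_zero_iff (by norm_num) |>.1 h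
        rcases c0 with h0 | h0 <;> rcases c1 with h1 | h1 <;> rcases c2 with h2 | h2
        · exact ⟨h0, h1, h2, rfl⟩
        · subst h0 h1
          refine ⟨rfl, rfl, z4 ?_, rfl⟩
          linear_combination eu'
        · subst h0 h2
          refine ⟨rfl, z4 ?_, rfl, rfl⟩
          linear_combination eu'
        · exact (key h12 h1 h2).elim
        · subst h1 h2
          refine ⟨z4 ?_, rfl, rfl, rfl⟩
          linear_combination eu'
        · exact (key h20 h2 h0).elim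
        · exact (key h01 h0 h1).elim
        · exact (key h01 h0 h1).elim
      · exfalso
        have ht : t = 0 := by
          have : t * W ^ 4 = 0 := by
            rw [hq0] at f3; linear_combination f3 / 4
          exact (mul_eq_zero.1 this).resolve_right (pow_ne_zero _ hW)
        subst ht
        rw [hq0] at f0 f1 f2
        have z4 : ∀ {a : ℂ}, u * a ^ 4 = 0 → a = 0 := fun h =>
          pow_eq_zero_iff (by norm_num) |>.1 ((mul_eq_zero.1 h).resolve_left hu)
        have g0 : X0 = 0 := z4 (by linear_combination -f0 / 4)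
        have g1 : X1 = 0 := z4 (by linear_combination -f1 / 4)
        have g2 : X2 = 0 := z4 (by linear_combination -f2 / 4)
        subst g0 g1 g2
        have : W ^ 4 = 0 := by linear_combination et / 3
        exact hW (pow_eq_zero_iff (by norm_num) |>.1 this)
  · exfalso
    have hu : u ≠ 0 := fun h => huq (by rw [h, zero_mul])
    have hq0 : q ≠ 0 := fun h => huq (by rw [h, mul_zero])
    -- the product of the coefficients
    have hprod : (p0 * t - u) * (p1 * t - u) * (p2 * t - u) = 2 * t ^ 3 - u ^ 3 := by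
      linear_combination t ^ 3 * s3 - t ^ 2 * u * s2 + t * u ^ 2 * s1
    have hsum : p0 * ((p1 * t - u) * (p2 * t - u)) + p1 * ((p2 * t - u) * (p0 * t - u)) +
        p2 * ((p0 * t - u) * (p1 * t - u)) = 6 * t ^ 2 := by
      linear_combination 3 * t ^ 2 * s3 - 2 * t * u * s2 + u ^ 2 * s1
    have k1 : 256 * t * (2 * t ^ 3 - u ^ 3) = 27 * u ^ 4 := by
      have h4 : q ^ 4 ≠ 0 := pow_ne_zero _ hq0
      apply mul_right_cancel₀ h4
      have g0 : 4 * (p0 * t - u) * X0 ^ 4 = -3 * u * q := by linear_combination f0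
      have g1 : 4 * (p1 * t - u) * X1 ^ 4 = -3 * u * q := by linear_combination f1
      have g2 : 4 * (p2 * t - u) * X2 ^ 4 = -3 * u * q := by linear_combination f2
      have g3 : 4 * t * W ^ 4 = - (u * q) := by linear_combination f3
      have hL : 256 * t * (2 * t ^ 3 - u ^ 3) * q ^ 4 =
          (4 * (p0 * t - u) * X0 ^ 4) * (4 * (p1 * t - u) * X1 ^ 4) *
            (4 * (p2 * t - u) * X2 ^ 4) * (4 * t * W ^ 4) := by
        rw [← hprod, hq]; ring
      rw [hL, g0, g1, g2, g3]; ring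
    have k2 : 8 * t ^ 3 = u ^ 3 := by
      have h5 : u * q * (2 * t ^ 3 - u ^ 3 + 6 * t ^ 3) = 0 := by
        rw [← hprod]
        have h6 : u * q * ((p0 * t - u) * (p1 * t - u) * (p2 * t - u) + t * (
            p0 * ((p1 * t - u) * (p2 * t - u)) + p1 * ((p2 * t - u) * (p0 * t - u)) +
            p2 * ((p0 * t - u) * (p1 * t - u)))) = 0 := by
          linear_combination
            (p0 * t - u) * (p1 * t - u) * (p2 * t - u) * f3
            + (t * p0 * ((p1 * t - u) * (p2 * t - u))) * f0 / 3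
            + (t * p1 * ((p2 * t - u) * (p0 * t - u))) * f1 / 3
            + (t * p2 * ((p0 * t - u) * (p1 * t - u))) * f2 / 3
            - 4 / 3 * t * (p0 * t - u) * (p1 * t - u) * (p2 * t - u) * et
        rw [hsum] at h6
        linear_combination h6
      have h6 := (mul_eq_zero.1 h5).resolve_left huq
      linear_combination h6
    have k3 : t ≠ 0 := by
      rintro rfl
      apply hu
      have : u ^ 3 = 0 := by linear_combination -k2
      exact pow_eq_zero_iff (by norm_num) |>.1 this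
    have k4 : u = -(64 / 9) * t := by
      have h7 : t ^ 3 * (9 * u + 64 * t) = 0 := by
        linear_combination (256 * t + 27 * u) / 24 * k2 - k1 / 24
      have h8 := (mul_eq_zero.1 h7).resolve_left (pow_ne_zero _ k3)
      linear_combination h8 / 9
    have k5 : t ^ 3 = 0 := by
      rw [k4] at k2
      linear_combination 729 / (262144 + 5832) * k2
    exact k3 (pow_eq_zero_iff (by norm_num) |>.1 k5)

lemma pd_nat (i : Fin 4 ⊕ Fin 2) (n : ℕ) : pderiv i ((n : ℕ) : R) = 0 :=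
  (pderiv i).map_natCast n

/-- the threefold is smooth -/
theorem smooth (a : Fin 4 → ℂ) (b : Fin 2 → ℂ) (ha : a ≠ 0) (hb : b ≠ 0) :
    ∃ i, aeval (Sum.elim a b) (pderiv i G) ≠ 0 := by
  by_contra hcon
  push Not at hcon
  obtain ⟨x, hx⟩ : ∃ x, x = a 0 := ⟨_, rfl⟩
  obtain ⟨y, hy⟩ : ∃ y, y = a 1 := ⟨_, rfl⟩
  obtain ⟨z, hz⟩ : ∃ z, z = a 2 := ⟨_, rfl⟩
  obtain ⟨W, hW⟩ : ∃ W, W = a 3 := ⟨_, rfl⟩
  obtain ⟨t, ht⟩ : ∃ t, t = b 0 := ⟨_, rfl⟩
  obtain ⟨u, hu⟩ : ∃ u, u = b 1 := ⟨_, rfl⟩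
  have d2 : ∀ i, pderiv i (2 : R) = 0 := fun i => by exact_mod_cast pd_nat i 2
  have d4 : ∀ i, pderiv i (4 : R) = 0 := fun i => by exact_mod_cast pd_nat i 4
  have d6 : ∀ i, pderiv i (6 : R) = 0 := fun i => by exact_mod_cast pd_nat i 6
  have d8 : ∀ i, pderiv i (8 : R) = 0 := fun i => by exact_mod_cast pd_nat i 8
  have d12 : ∀ i, pderiv i (12 : R) = 0 := fun i => by exact_mod_cast pd_nat i 12
  have d16 : ∀ i, pderiv i (16 : R) = 0 := fun i => by exact_mod_cast pd_nat i 16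
  have d24 : ∀ i, pderiv i (24 : R) = 0 := fun i => by exact_mod_cast pd_nat i 24
  have d48 : ∀ i, pderiv i (48 : R) = 0 := fun i => by exact_mod_cast pd_nat i 48
  have E0 := hcon (Sum.inl 0)
  have E1 := hcon (Sum.inl 1)
  have E2 := hcon (Sum.inl 2)
  have E3 := hcon (Sum.inl 3)
  have Et := hcon (Sum.inr 0)
  have Eu := hcon (Sum.inr 1)
  simp [G, pderiv_X, Derivation.leibniz, Derivation.leibniz_pow, d2, d4, d6, d8, d12, d16,
    d24, d48] at E0 E1 E2 E3 Et Eu
  rw [← hx, ← hy, ← hz, ← hW, ← ht, ← hu] at E0 E1 E2 E3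
  rw [← hx, ← hy, ← hz, ← hW] at Et Eu
  obtain ⟨θ, hθ⟩ : ∃ θ : ℂ, θ ^ 3 = 2 := IsAlgClosed.exists_pow_nat_eq 2 (by norm_num)
  obtain ⟨w, hw⟩ : ∃ w : ℂ, w ^ 2 + w + 1 = 0 := by
    obtain ⟨s, hs⟩ : ∃ s : ℂ, s ^ 2 = -3 := IsAlgClosed.exists_pow_nat_eq (-3) (by norm_num)
    exact ⟨(s - 1) / 2, by linear_combination hs / 4⟩
  have hw3 : w ^ 3 = 1 := by linear_combination (w - 1) * hw
  have hθ0 : θ ≠ 0 := by rintro rfl; norm_num at hθ
  have hw0 : w ≠ 0 := by rintro rfl; norm_num at hw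
  have hw1 : w ≠ 1 := by rintro rfl; norm_num at hw
  have hE : ∀ p : ℂ, p ^ 3 = 2 →
      3 * u * W * ((x ^ 2 - 2 * y * z) + (2 * z ^ 2 - x * y) * p + (y ^ 2 - x * z) * p ^ 2) +
        4 * (p * t - u) * (x + p * y + p ^ 2 * z) ^ 3 = 0 := by
    intro p hp
    have h := hp
    linear_combination E0 + p ^ 2 / 2 * E1 + p / 2 * E2 + (4 * (p * t - u) * (y ^ 3 + z ^ 3 * (p ^ 3 + 2)
      + 6 * x * y * z + 3 * x * z ^ 2 * p + 3 * y ^ 2 * z * p + 3 * y * z ^ 2 * p ^ 2) + 12 * t * (x * y ^ 2 + x ^ 2 * z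
      + 2 * y * z ^ 2)) * hp
  have hw4 : w ^ 4 = w := by linear_combination w * hw3
  have hw5 : w ^ 5 = w ^ 2 := by linear_combination w ^ 2 * hw3
  have hw6 : w ^ 6 = 1 := by linear_combination (w ^ 3 + 1) * hw3
  have hS : ∀ p : ℂ, p ^ 3 = 2 → (x + (p * w) * y + (p * w) ^ 2 * z) *
      (x + (p * w ^ 2) * y + (p * w ^ 2) ^ 2 * z) =
        (x ^ 2 - 2 * y * z) + (2 * z ^ 2 - x * y) * p + (y ^ 2 - x * z) * p ^ 2 := by
    intro p hp
    linear_combination x * y * p * hw + x * z * p ^ 2 * (hw + hw4) + y ^ 2 * p ^ 2 * hw3 +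
      y * z * (p ^ 3 * (hw5 + hw4 + hw) - hp) + z ^ 2 * p * (p ^ 3 * hw6 + hp)
  have q1 : (θ * w) ^ 3 = 2 := by linear_combination w ^ 3 * hθ + 2 * hw3
  have q2 : (θ * w ^ 2) ^ 3 = 2 := by linear_combination w ^ 6 * hθ + 2 * hw6
  have r1 : θ * w * w = θ * w ^ 2 := by ring
  have r2 : θ * w * w ^ 2 = θ := by linear_combination θ * hw3
  have r3 : θ * w ^ 2 * w = θ := by linear_combination θ * hw3
  have r4 : θ * w ^ 2 * w ^ 2 = θ * w := by linear_combination θ * hw4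
  have S0 := hS θ hθ
  have S1 := hS (θ * w) q1
  have S2 := hS (θ * w ^ 2) q2
  rw [r1, r2] at S1
  rw [r3, r4] at S2
  have hw21 : w ^ 2 ≠ 1 := by
    intro h
    have h2 : w = -2 := by linear_combination hw - h
    rw [h2] at h
    norm_num at h
  have hw2 : w ^ 2 ≠ w := by
    intro h
    have h1 : w * (w - 1) = 0 := by linear_combination h
    rcases mul_eq_zero.1 h1 with h2 | h2
    · exact hw0 h2
    · exact hw1 (sub_eq_zero.1 h2)
  obtain ⟨A, hA⟩ : ∃ A, A = x ^ 4 + 8 * x * y ^ 3 + 24 * x ^ 2 * y * z + 24 * y ^ 2 * z ^ 2 +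
    16 * x * z ^ 3 := ⟨_, rfl⟩
  obtain ⟨A1, hA1⟩ : ∃ A1, A1 = 4 * x ^ 3 * y + 2 * (y ^ 4 + 12 * x * y ^ 2 * z +
    6 * x ^ 2 * z ^ 2) + 16 * y * z ^ 3 := ⟨_, rfl⟩
  obtain ⟨A2, hA2⟩ : ∃ A2, A2 = 6 * x ^ 2 * y ^ 2 + 4 * x ^ 3 * z + 2 * (4 * y ^ 3 * z +
    12 * x * y * z ^ 2) + 4 * z ^ 4 := ⟨_, rfl⟩
  have hT : ∀ p : ℂ, p ^ 3 = 2 → (x + p * y + p ^ 2 * z) ^ 4 = A + A1 * p + A2 * p ^ 2 := by
    intro p hp
    rw [hA, hA1, hA2]
    linear_combination ((4 * x * y ^ 3 + 12 * x ^ 2 * y * z) +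
      (6 * y ^ 2 * z ^ 2 + 4 * x * z ^ 3) * (p ^ 3 + 2) +
      p * ((y ^ 4 + 12 * x * y ^ 2 * z + 6 * x ^ 2 * z ^ 2) + 4 * y * z ^ 3 * (p ^ 3 + 2)) +
      p ^ 2 * ((4 * y ^ 3 * z + 12 * x * y * z ^ 2) + z ^ 4 * (p ^ 3 + 2))) * hp
  have hw2' : w ^ 4 + w ^ 2 + 1 = 0 := by linear_combination hw + hw4
  have hcub : θ ^ 3 + (θ * w) ^ 3 + (θ * w ^ 2) ^ 3 = 6 := by linear_combination hθ + q1 + q2
  obtain ⟨c0, c1, c2, c3⟩ := core (p0 := θ) (p1 := θ * w) (p2 := θ * w ^ 2)
    (X0 := x + θ * y + θ ^ 2 * z)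
    (X1 := x + (θ * w) * y + (θ * w) ^ 2 * z) (X2 := x + (θ * w ^ 2) * y + (θ * w ^ 2) ^ 2 * z)
    (W := W) (t := t) (u := u)
    (by linear_combination θ * hw) (by linear_combination θ ^ 2 * w * hw)
    (by linear_combination w ^ 3 * hθ + 2 * hw3)
    (fun h => hw1 (mul_left_cancel₀ hθ0 (by rw [mul_one]; exact h.symm)))
    (fun h => hw2 (mul_left_cancel₀ hθ0 h).symm)
    (fun h => hw21 (mul_left_cancel₀ hθ0 (by rw [mul_one]; exact h)))
    (by rw [S0]; exact hE _ hθ) (by rw [S1]; exact hE _ q1) (by rw [S2]; exact hE _ q2)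
    (by
      rw [mul_assoc (x + θ * y + θ ^ 2 * z), S0]
      linear_combination E3 + u * (y ^ 3 + 2 * z ^ 3 - 2 * x * y * z + θ * y ^ 2 * z -
        θ * x * z ^ 2) * hθ)
    (by
      rw [hT _ hθ, hT _ q1, hT _ q2]
      linear_combination 3 * Et + A * θ * hw + A1 * θ ^ 2 * hw2' + A2 * hcub + 6 * hA2)
    (by
      rw [mul_assoc (x + θ * y + θ ^ 2 * z), S0, hT _ hθ, hT _ q1, hT _ q2]
      linear_combination 3 * Eu + 3 * W * (y ^ 3 + 2 * z ^ 3 - 2 * x * y * z + θ * y ^ 2 * z -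
        θ * x * z ^ 2) * hθ - A1 * θ * hw - A2 * θ ^ 2 * hw2' - 3 * hA)
    (by
      rintro ⟨h1, h2⟩
      apply hb
      funext i
      fin_cases i
      · exact ht.symm.trans h1
      · exact hu.symm.trans h2)
  apply ha
  have hz0 : z = 0 := by
    have h : 3 * θ ^ 2 * z = 0 := by
      linear_combination c0 + w * c1 + w ^ 2 * c2 - x * hw - θ * y * hw2' -
        θ ^ 2 * z * (hw3 + hw6)
    exact (mul_eq_zero.1 h).resolve_left (mul_ne_zero (by norm_num) (pow_ne_zero _ hθ0))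
  have hy0 : y = 0 := by
    have h : 3 * θ * y = 0 := by
      linear_combination c0 + w ^ 2 * c1 + w * c2 - x * hw - 2 * θ * y * hw3 -
        θ ^ 2 * z * (hw + hw4 + hw5)
    exact (mul_eq_zero.1 h).resolve_left (mul_ne_zero (by norm_num) hθ0)
  have hx0 : x = 0 := by
    have h : 3 * x = 0 := by
      linear_combination c0 + c1 + c2 - θ * y * hw - θ ^ 2 * z * hw2'
    exact (mul_eq_zero.1 h).resolve_left (by norm_num)
  funext i
  fin_cases i
  · exact hx.symm.trans hx0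
  · exact hy.symm.trans hy0
  · exact hz.symm.trans hz0
  · exact hW.symm.trans c3

end Pool.Agent.Y738.BC
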