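import Mathlib
import Pool.Agent.Y738.BC.Pts

set_option autoImplicit false

/-!
# The upper bound for the approximation constant: units of the cubic field
-/

namespace Pool.Agent.Y738.BC

open MvPolynomial LinearAlgebra.Projectivization Filter Topology

/-- the coordinates of the units -/
def un : ℕ → ℤ × ℤ × ℤ
  | 0 => (1, 1, 1)
  | n + 1 => ((un n).1 + 2 * (un n).2.1 + 2 * (un n).2.2, (un n).1 + (un n).2.1 + 2 * (un n).2.2,
      (un n).1 + (un n).2.1 + (un n).2.2)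

/-- the first coordinate of the units -/
def ux (n : ℕ) : ℤ := (un n).1

/-- the second coordinate of the units -/
def uy (n : ℕ) : ℤ := (un n).2.1

/-- the third coordinate of the units -/
def uz (n : ℕ) : ℤ := (un n).2.2

/-- the last coordinate of the points -/
def uw (n : ℕ) : ℤ := Az (ux n) (uy n) (uz n)

lemma ux_succ (n : ℕ) : ux (n + 1) = ux n + 2 * uy n + 2 * uz n := rfl
lemma uy_succ (n : ℕ) : uy (n + 1) = ux n + uy n + 2 * uz n := rfl
lemma uz_succ (n : ℕ) : uz (n + 1) = ux n + uy n + uz n := rfl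

lemma u_ord (n : ℕ) : 1 ≤ uz n ∧ uz n ≤ uy n ∧ uy n ≤ ux n ∧ (n : ℤ) + 1 ≤ ux n := by
  induction n with
  | zero => refine ⟨?_, ?_, ?_, ?_⟩ <;> simp [ux, uy, uz, un]
  | succ n ih =>
    rw [ux_succ, uy_succ, uz_succ]
    push_cast
    omega

lemma u_norm (n : ℕ) : Nz (ux n) (uy n) (uz n) = 1 := by
  induction n with
  | zero => simp [ux, uy, uz, un, Nz]
  | succ n ih =>
    rw [← ih, ux_succ, uy_succ, uz_succ]
    unfold Nz
    ring

lemma uw_ge (n : ℕ) : ux n ^ 4 ≤ uw n := by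
  obtain ⟨h1, h2, h3, h4⟩ := u_ord n
  have hy : 0 ≤ uy n := by linarith
  have hx : 0 ≤ ux n := by linarith
  have hz : 0 ≤ uz n := by linarith
  unfold uw Az
  have : 0 ≤ 24 * ux n ^ 2 * uy n * uz n + 8 * ux n * uy n ^ 3 + 16 * ux n * uz n ^ 3 +
    24 * uy n ^ 2 * uz n ^ 2 := by positivity
  linarith

lemma uw_mono : StrictMono uw := by
  apply strictMono_nat_of_lt_succ
  intro n
  obtain ⟨h1, h2, h3, h4⟩ := u_ord n
  have hz : 0 ≤ uz n := by linarith
  have hy : 0 ≤ uy n := by linarith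
  have hx : 0 ≤ ux n := by linarith
  have ex : ux n < ux (n + 1) := by rw [ux_succ]; linarith
  have ey : uy n < uy (n + 1) := by rw [uy_succ]; linarith
  have ez : uz n < uz (n + 1) := by rw [uz_succ]; linarith
  unfold uw Az
  have hx1 : 0 ≤ ux (n + 1) := hx.trans ex.le
  have hy1 : 0 ≤ uy (n + 1) := hy.trans ey.le
  have h5 : ux n ^ 4 < ux (n + 1) ^ 4 := by gcongr
  gcongr

/-- the integral coordinates of the points -/
def ua (n : ℕ) : Fin 4 → ℤ := ![ux n, uy n, uz n, uw n]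

lemma ua_ne (n : ℕ) : (fun i => (ua n i : ℚ)) ≠ 0 := by
  intro h
  have h1 := congrFun h 0
  have h2 : ux n = 0 := by
    have : ((ux n : ℤ) : ℚ) = 0 := h1
    exact_mod_cast this
  obtain ⟨h1, h2, h3, h4⟩ := u_ord n
  omega

lemma ua_gcd (n : ℕ) : Finset.univ.gcd (ua n) = 1 := by
  apply Int.eq_one_of_dvd_one (Int.nonneg_of_normalize_eq_self Finset.normalize_gcd)
  rw [← u_norm n]
  have h0 : Finset.univ.gcd (ua n) ∣ ux n := Finset.gcd_dvd (f := ua n) (Finset.mem_univ 0)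
  have h1 : Finset.univ.gcd (ua n) ∣ uy n := Finset.gcd_dvd (f := ua n) (Finset.mem_univ 1)
  have h2 : Finset.univ.gcd (ua n) ∣ uz n := Finset.gcd_dvd (f := ua n) (Finset.mem_univ 2)
  unfold Nz
  refine dvd_sub (dvd_add (dvd_add ?_ ?_) ?_) ?_
  · exact dvd_pow h0 (by norm_num)
  · exact (dvd_pow h1 (by norm_num)).mul_left _
  · exact (dvd_pow h2 (by norm_num)).mul_left _
  · exact h2.mul_left _

/-- the points -/
noncomputable def up (n : ℕ) : Pt :=
  (Projectivization.mk ℚ (fun i => (ua n i : ℚ)) (ua_ne n), P.2)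

lemma up_mem (n : ℕ) : up n ∈ points (Ideal.span {G}) := by
  rw [mem_span_points]
  intro a b ha hb he
  have e1 : Projectivization.mk ℚ a ha = Projectivization.mk ℚ (fun i => (ua n i : ℚ)) (ua_ne n) :=
    congrArg Prod.fst he
  have e2 : Projectivization.mk ℚ b hb = P.2 := congrArg Prod.snd he
  unfold P at e2
  rw [Projectivization.mk_eq_mk_iff'] at e1 e2
  obtain ⟨α, rfl⟩ := e1
  obtain ⟨β, rfl⟩ := e2
  rw [aeval_G]
  have h1 : ((Nz (ux n) (uy n) (uz n) : ℤ) : ℚ) = 1 := by rw [u_norm]; norm_num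
  unfold Nz at h1
  push_cast at h1
  simp only [Pi.smul_apply, smul_eq_mul, ua, uw, Az, Matrix.cons_val_zero, Matrix.cons_val_one,
    Matrix.cons_val]
  push_cast
  linear_combination (β * α ^ 4 * (ux n ^ 4 + 24 * ux n ^ 2 * uy n * uz n + 8 * ux n * uy n ^ 3 +
    16 * ux n * uz n ^ 3 + 24 * uy n ^ 2 * uz n ^ 2)) * h1

lemma uabs (n : ℕ) : max |(ux n : ℝ)| (max |(uy n : ℝ)| |(uz n : ℝ)|) = ux n ∧
    (1 : ℝ) ≤ ux n ∧ ((ux n : ℝ)) ^ 4 ≤ uw n ∧ (ux n : ℝ) ≤ uw n ∧ (n : ℝ) + 1 ≤ ux n := by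
  obtain ⟨h1, h2, h3, h4⟩ := u_ord n
  have r1 : (1 : ℝ) ≤ uz n := by exact_mod_cast h1
  have r2 : (uz n : ℝ) ≤ uy n := by exact_mod_cast h2
  have r3 : (uy n : ℝ) ≤ ux n := by exact_mod_cast h3
  have r4 : (n : ℝ) + 1 ≤ ux n := by exact_mod_cast h4
  have r5 : ((ux n : ℝ)) ^ 4 ≤ uw n := by exact_mod_cast uw_ge n
  have r6 : (1 : ℝ) ≤ ux n := by linarith
  refine ⟨?_, r6, r5, ?_, r4⟩
  · rw [abs_of_pos (by linarith), abs_of_pos (by linarith), abs_of_pos (by linarith),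
      max_eq_left r2, max_eq_left r3]
  · refine le_trans ?_ r5
    calc (ux n : ℝ) = (ux n : ℝ) ^ 1 := (pow_one _).symm
      _ ≤ (ux n : ℝ) ^ 4 := pow_le_pow_right₀ r6 (by norm_num)

lemma up_height (n : ℕ) : (up n).1.mulHeight = uw n := by
  obtain ⟨h1, h2, h3, h4, h5⟩ := uabs n
  unfold up
  rw [mulHeight_prim (ua_gcd n), iSup4]
  change max (max |(ux n : ℝ)| (max |(uy n : ℝ)| |(uz n : ℝ)|)) |(uw n : ℝ)| = uw n
  rw [h1, abs_of_pos (by linarith), max_eq_right h4]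

lemma up_dist (n : ℕ) : dist P (up n) = ux n / uw n := by
  obtain ⟨h1, h2, h3, h4, h5⟩ := uabs n
  have h6 : pdist P.1 (up n).1 = ux n / uw n := by
    unfold up
    rw [pdist_P1]
    simp only [Rat.cast_intCast]
    rw [iSup4]
    change max |(ux n : ℝ)| (max |(uy n : ℝ)| |(uz n : ℝ)|) /
      max (max |(ux n : ℝ)| (max |(uy n : ℝ)| |(uz n : ℝ)|)) |(uw n : ℝ)| = _
    rw [h1, abs_of_pos (show (0 : ℝ) < uw n by linarith), max_eq_right h4]
  unfold dist
  rw [h6]
  change max _ (pdist P.2 P.2) = _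
  rw [pdist_P22]
  apply max_eq_left
  have : (0 : ℝ) ≤ uw n := by linarith
  positivity

lemma up_inj : Function.Injective up := by
  intro m n h
  have h1 : ((uw m : ℤ) : ℝ) = uw n := by rw [← up_height, ← up_height, h]
  exact uw_mono.injective (by exact_mod_cast h1)

/-- the upper bound -/
theorem upper (a b : ℕ) : approxConst a b (points (Ideal.span {G})) P ≤ ((4 * a / 3 : ℝ) : EReal) := by
  unfold approxConst
  refine le_trans (sInf_le (a := seqConst a b up P) ⟨up, up_inj, up_mem, rfl⟩) ?_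
  unfold seqConst
  refine sInf_le ⟨_, rfl, ?_, ?_⟩
  · have h0 : Tendsto (fun n : ℕ => 1 / ((n : ℝ) + 1)) atTop (𝓝 0) :=
      tendsto_one_div_add_atTop_nhds_zero_nat
    refine squeeze_zero (fun n => ?_) (fun n => ?_) h0
    · rw [up_dist]
      obtain ⟨h1, h2, h3, h4, h5⟩ := uabs n
      have : (0 : ℝ) ≤ uw n := by linarith
      positivity
    · rw [up_dist]
      obtain ⟨h1, h2, h3, h4, h5⟩ := uabs n
      have h6 : (0 : ℝ) < uw n := by linarith
      rw [div_le_div_iff₀ h6 (by positivity), one_mul]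
      have h7 : (ux n : ℝ) ^ 2 ≤ ux n ^ 4 := pow_le_pow_right₀ h2 (by norm_num)
      nlinarith
  · refine ⟨1, ?_⟩
    rintro _ ⟨n, rfl⟩
    obtain ⟨h1, h2, h3, h4, h5⟩ := uabs n
    have hw : (0 : ℝ) < uw n := by linarith
    have hx : (0 : ℝ) < ux n := by linarith
    change (up n).1.mulHeight ^ a * P.2.mulHeight ^ b * dist P (up n) ^ (4 * (a : ℝ) / 3) ≤ 1
    rw [P2_height, one_pow, mul_one, up_height, up_dist, ← Real.rpow_natCast,
      Real.rpow_def_of_pos hw, Real.rpow_def_of_pos (div_pos hx hw), ← Real.exp_add,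
      Real.exp_le_one_iff, Real.log_div hx.ne' hw.ne']
    have h6 : 4 * Real.log (ux n) ≤ Real.log (uw n) := by
      have := Real.log_le_log (by positivity) h3
      rwa [Real.log_pow] at this
    have ha : (0 : ℝ) ≤ a := Nat.cast_nonneg a
    nlinarith

end Pool.Agent.Y738.BC
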